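import Pool.Agent.Helper42_MA.TypeIII

set_option autoImplicit false

namespace Helper42_MA

open Finset Classical Filter

/-- The transitive closure of a graph (two distinct vertices are joined iff they lie in the same
component). -/
def closG {n : ℕ} (x : SimpleGraph (Fin n)) : SimpleGraph (Fin n) where
  Adj u v := u ≠ v ∧ x.Reachable u v
  symm := ⟨fun _ _ h => ⟨h.1.symm, h.2.symm⟩⟩
  loopless := ⟨fun _ h => h.1 rfl⟩

theorem HasMA.comap {n : ℕ} {b : ℝ} {YES NO : SimpleGraph (Fin n) → SimpleGraph (Fin n) → Prop}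
    (h : HasMA n b YES NO) (φ : SimpleGraph (Fin n) → SimpleGraph (Fin n)) :
    HasMA n b (fun x y => YES (φ x) (φ y)) (fun x y => NO (φ x) (φ y)) := by
  obtain ⟨k, p, m, hk, hpm, A, B, H⟩ := h
  exact ⟨k, p, m, hk, hpm, fun r w x => A r w (φ x), fun r w y z => B r w (φ y) z,
    fun x y => H (φ x) (φ y)⟩

theorem le_closG {n : ℕ} (x : SimpleGraph (Fin n)) : x ≤ closG x :=
  fun _ _ h => ⟨h.ne, h.reachable⟩

theorem closG_sup_reachable {n : ℕ} (x y : SimpleGraph (Fin n)) {u v : Fin n}
    (h : (closG x ⊔ closG y).Reachable u v) : (x ⊔ y).Reachable u v := by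
  obtain ⟨p⟩ := h
  induction p with
  | nil => exact SimpleGraph.Reachable.refl _
  | cons hadj _ ih =>
    rw [SimpleGraph.sup_adj] at hadj
    rcases hadj with h | h
    · exact (h.2.mono le_sup_left).trans ih
    · exact (h.2.mono le_sup_right).trans ih

theorem closG_connected {n : ℕ} (x y : SimpleGraph (Fin n)) :
    (closG x ⊔ closG y).Connected ↔ (x ⊔ y).Connected := by
  constructor
  · intro h
    have := h.nonempty
    exact ⟨fun u v => closG_sup_reachable x y (h.preconnected u v)⟩
  · intro h
    exact h.mono (sup_le_sup (le_closG x) (le_closG y))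

end Helper42_MA
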