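import Pool.Agent.Helper42_MA.Count

set_option autoImplicit false

namespace Helper42_MA

open Finset Classical

section
variable {n : ℕ}

/-- The chosen marked vertex of the component of `v` (or `v` itself if there is none). -/
noncomputable def rep (x : SimpleGraph (Fin n)) (P : Fin n → Bool) (v : Fin n) : Fin n :=
  if h : (univ.filter (fun p => P p = true ∧ x.Reachable v p)).Nonempty then
    (univ.filter (fun p => P p = true ∧ x.Reachable v p)).min' h else v

theorem rep_reachable (x : SimpleGraph (Fin n)) (P : Fin n → Bool) (v : Fin n) :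
    x.Reachable v (rep x P v) := by
  unfold rep
  split_ifs with h
  · have := Finset.min'_mem _ h
    simp only [Finset.mem_filter, Finset.mem_univ, true_and] at this
    exact this.2
  · exact SimpleGraph.Reachable.refl v

theorem rep_eq_of_unique (x : SimpleGraph (Fin n)) (P : Fin n → Bool) {v p : Fin n}
    (hp : P p = true) (hvp : x.Reachable v p)
    (hu : ∀ p', P p' = true → x.Reachable v p' → p' = p) : rep x P v = p := by
  unfold rep
  have hne : (univ.filter (fun p => P p = true ∧ x.Reachable v p)).Nonempty :=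
    ⟨p, by simp [hp, hvp]⟩
  rw [dif_pos hne]
  have := Finset.min'_mem _ hne
  simp only [Finset.mem_filter, Finset.mem_univ, true_and] at this
  exact hu _ this.1 this.2

/-- `below a b`: `a` is a label strictly below `b`, where `none` as second argument is `∞`. -/
def below {m : ℕ} : Option (Fin m) → Option (Fin m) → Prop
  | some _, none => True
  | some j, some k => j < k
  | none, _ => False

/-! ### minimisers of the distance on components -/

theorem exists_argmin (x : SimpleGraph (Fin n)) (δ : Fin n → ℕ) (v : Fin n) :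
    ∃ w, x.Reachable v w ∧ ∀ w', x.Reachable v w' → δ w ≤ δ w' := by
  have hne : (univ.filter (fun w => x.Reachable v w)).Nonempty :=
    ⟨v, by simp⟩
  obtain ⟨w, hw, hmin⟩ := Finset.exists_min_image _ δ hne
  simp only [Finset.mem_filter, Finset.mem_univ, true_and] at hw hmin
  exact ⟨w, hw, hmin⟩

/-- A canonical minimiser of `δ` on a component. -/
noncomputable def aminC (x : SimpleGraph (Fin n)) (δ : Fin n → ℕ) (C : x.ConnectedComponent) : Fin n :=
  (exists_argmin x δ (Quot.out C)).choose

/-- A canonical minimiser of `δ` on the component of `v`. -/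
noncomputable def amin (x : SimpleGraph (Fin n)) (δ : Fin n → ℕ) (v : Fin n) : Fin n :=
  aminC x δ (x.connectedComponentMk v)

theorem amin_reachable (x : SimpleGraph (Fin n)) (δ : Fin n → ℕ) (v : Fin n) :
    x.Reachable v (amin x δ v) := by
  have h1 := (exists_argmin x δ (Quot.out (x.connectedComponentMk v))).choose_spec.1
  have h2 : x.Reachable v (Quot.out (x.connectedComponentMk v)) := by
    rw [← SimpleGraph.ConnectedComponent.eq]
    exact (Quot.out_eq _).symm
  exact h2.trans h1

theorem amin_le (x : SimpleGraph (Fin n)) (δ : Fin n → ℕ) {v w : Fin n} (h : x.Reachable v w) :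
    δ (amin x δ v) ≤ δ w := by
  have h1 := (exists_argmin x δ (Quot.out (x.connectedComponentMk v))).choose_spec.2
  have h2 : x.Reachable (Quot.out (x.connectedComponentMk v)) v := by
    rw [← SimpleGraph.ConnectedComponent.eq]
    exact (Quot.out_eq _)
  exact h1 w (h2.trans h)

theorem amin_congr (x : SimpleGraph (Fin n)) (δ : Fin n → ℕ) {v w : Fin n} (h : x.Reachable v w) :
    amin x δ v = amin x δ w := by
  unfold amin
  rw [SimpleGraph.ConnectedComponent.eq.mpr h]

theorem amin_amin (x : SimpleGraph (Fin n)) (δ : Fin n → ℕ) (v : Fin n) :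
    amin x δ (amin x δ v) = amin x δ v :=
  (amin_congr x δ (amin_reachable x δ v)).symm

theorem card_image_amin (x : SimpleGraph (Fin n)) (δ : Fin n → ℕ) :
    (univ.image (amin x δ)).card ≤ Fintype.card x.ConnectedComponent := by
  have : univ.image (amin x δ) ⊆ (univ : Finset x.ConnectedComponent).image
      (aminC x δ) := by
    intro u hu
    simp only [Finset.mem_image, Finset.mem_univ, true_and] at hu ⊢
    obtain ⟨v, rfl⟩ := hu
    exact ⟨x.connectedComponentMk v, rfl⟩
  exact (Finset.card_le_card this).trans Finset.card_image_le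

/-- A minimiser `u ≠ r` on its `x`-component has a strictly closer `y`-neighbour. -/
theorem exists_closer (x y : SimpleGraph (Fin n)) (hG : (x ⊔ y).Connected) (r : Fin n) {u : Fin n}
    (hu : u ≠ r) (hmin : ∀ w, x.Reachable u w → (x ⊔ y).dist u r ≤ (x ⊔ y).dist w r) :
    ∃ u', y.Adj u u' ∧ (x ⊔ y).dist u' r < (x ⊔ y).dist u r := by
  obtain ⟨p, hp⟩ := hG.exists_walk_length_eq_dist u r
  cases p with
  | nil => exact absurd rfl hu
  | @cons _ u' _ hadj p' =>
    have h1 : (x ⊔ y).dist u' r ≤ p'.length := SimpleGraph.dist_le p'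
    have h2 : (x ⊔ y).dist u' r < (x ⊔ y).dist u r := by
      rw [← hp, SimpleGraph.Walk.length_cons]; omega
    rw [SimpleGraph.sup_adj] at hadj
    rcases hadj with hx | hy
    · have := hmin u' hx.reachable
      omega
    · exact ⟨u', hy, h2⟩

theorem amin_step (x y : SimpleGraph (Fin n)) (hG : (x ⊔ y).Connected) (r : Fin n) {u : Fin n}
    (hu : u ≠ r) (hmin : ∀ w, x.Reachable u w → (x ⊔ y).dist u r ≤ (x ⊔ y).dist w r) :
    (x ⊔ y).dist (amin y (fun w => (x ⊔ y).dist w r) u) r < (x ⊔ y).dist u r := by
  obtain ⟨u', h1, h2⟩ := exists_closer x y hG r hu hmin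
  exact (amin_le y (fun w => (x ⊔ y).dist w r) h1.reachable).trans_lt h2

end

/-! ### levels along an iteration -/

theorem exists_iterate {V : Type} (f : V → V) (S : Finset V) (hS : ∀ u ∈ S, f u ∈ S) (r : V)
    (δ : V → ℕ) (hδ : ∀ u ∈ S, u ≠ r → δ (f u) < δ u) :
    ∀ (m : ℕ) (u : V), u ∈ S → δ u ≤ m → ∃ j ≤ m, f^[j] u = r := by
  intro m
  induction m with
  | zero =>
    intro u hu h0
    refine ⟨0, le_refl _, ?_⟩
    by_contra h
    have := hδ u hu h
    omega
  | succ m ih =>
    intro u hu hm
    by_cases h : u = r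
    · exact ⟨0, by omega, h⟩
    · have h1 := hδ u hu h
      obtain ⟨j, hj, hjr⟩ := ih (f u) (hS u hu) (by omega)
      exact ⟨j + 1, by omega, by rw [Function.iterate_succ_apply]; exact hjr⟩

theorem exists_levels {n : ℕ} (f : Fin n → Fin n) (S : Finset (Fin n)) (hS : ∀ u ∈ S, f u ∈ S)
    (r : Fin n) (δ : Fin n → ℕ) (hδ : ∀ u ∈ S, u ≠ r → δ (f u) < δ u) (hb : ∀ u, δ u ≤ n)
    (d0 : ℕ) (hd0 : 0 < d0) :
    ∃ g : Fin n → Option (Fin (n + 1)),
      (univ.filter (fun v => g v ≠ none)).card ≤ S.card / d0 ∧
      (∀ u ∈ S, ∃ j < d0, f^[j] u = r ∨ g (f^[j] u) ≠ none) ∧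
      (∀ m, m ≠ r → g m ≠ none → m ∈ S ∧ ∃ j, 1 ≤ j ∧ j ≤ d0 ∧
        (f^[j] m = r ∨ below (g (f^[j] m)) (g m))) := by
  have hex : ∀ u ∈ S, ∃ j, f^[j] u = r := fun u hu => by
    obtain ⟨j, _, hj⟩ := exists_iterate f S hS r δ hδ (δ u) u hu le_rfl
    exact ⟨j, hj⟩
  set D : Fin n → ℕ := fun u => if h : ∃ j, f^[j] u = r then Nat.find h else 0 with hD
  have hDS : ∀ u (hu : u ∈ S), D u = Nat.find (hex u hu) := by
    intro u hu; rw [hD]; simp only; rw [dif_pos (hex u hu)]
  have hDle : ∀ u ∈ S, D u ≤ n := by
    intro u hu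
    rw [hDS u hu]
    obtain ⟨j, hj, hjr⟩ := exists_iterate f S hS r δ hδ (δ u) u hu le_rfl
    exact (Nat.find_min' _ hjr).trans (hj.trans (hb u))
  have hDr : ∀ u ∈ S, f^[D u] u = r := by
    intro u hu; rw [hDS u hu]; exact Nat.find_spec (hex u hu)
  have hDstep : ∀ u ∈ S, u ≠ r → D (f u) + 1 = D u := by
    intro u hu hur
    have h0 : D u ≠ 0 := by
      intro h0
      have := hDr u hu
      rw [h0] at this
      exact hur this
    apply le_antisymm
    · have h1 : f^[D u - 1] (f u) = r := by
        rw [← Function.iterate_succ_apply, Nat.succ_eq_add_one, Nat.sub_add_cancel (by omega)]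
        exact hDr u hu
      have h2 : D (f u) ≤ D u - 1 := by
        rw [hDS (f u) (hS u hu)]
        exact Nat.find_min' _ h1
      omega
    · have h1 : f^[D (f u) + 1] u = r := by
        rw [Function.iterate_succ_apply]; exact hDr _ (hS u hu)
      have h2 := Nat.find_min' (hex u hu) h1
      rw [hDS u hu]
      exact h2
  have hSit : ∀ j, ∀ u ∈ S, f^[j] u ∈ S := by
    intro j
    induction j with
    | zero => intro u hu; exact hu
    | succ j ih => intro u hu; rw [Function.iterate_succ_apply]; exact ih _ (hS u hu)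
  have hDit : ∀ j, ∀ u ∈ S, j ≤ D u → D (f^[j] u) = D u - j := by
    intro j
    induction j with
    | zero => intro u _ _; simp
    | succ j ih =>
      intro u hu hj
      have hne : u ≠ r := by
        intro h
        have h3 : D u ≤ 0 := by
          rw [hDS u hu]
          exact Nat.find_min' _ h
        omega
      have h1 := hDstep u hu hne
      rw [Function.iterate_succ_apply, ih (f u) (hS u hu) (by omega)]
      omega
  -- pigeonhole
  obtain ⟨i, hi, hcount⟩ : ∃ i < d0, (S.filter (fun u => D u % d0 = i)).card ≤ S.card / d0 := by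
    by_contra hcon
    push Not at hcon
    have h1 : S.card = ∑ i ∈ Finset.range d0, (S.filter (fun u => D u % d0 = i)).card := by
      apply Finset.card_eq_sum_card_fiberwise
      intro u _
      simp only [Finset.coe_range, Set.mem_Iio]
      exact Nat.mod_lt _ hd0
    have h2 : ∑ i ∈ Finset.range d0, (S.card / d0 + 1) ≤
        ∑ i ∈ Finset.range d0, (S.filter (fun u => D u % d0 = i)).card := by
      apply Finset.sum_le_sum
      intro i hi
      exact hcon i (Finset.mem_range.mp hi)
    rw [← h1, Finset.sum_const, Finset.card_range, smul_eq_mul] at h2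
    have h3 := Nat.div_add_mod S.card d0
    have h4 := Nat.mod_lt S.card hd0
    nlinarith
  refine ⟨fun u => if u ∈ S ∧ D u % d0 = i then some (Fin.ofNat (n + 1) (D u)) else none, ?_, ?_, ?_⟩
  · refine le_trans (Finset.card_le_card ?_) hcount
    intro u hu
    simp only [Finset.mem_filter, Finset.mem_univ, true_and, ne_eq] at hu ⊢
    by_contra hcon
    rw [if_neg hcon] at hu
    exact hu rfl
  · intro u hu
    by_cases hDu : D u < d0
    · exact ⟨D u, hDu, Or.inl (hDr u hu)⟩
    · push Not at hDu
      have hlt : (D u - i) % d0 < d0 := Nat.mod_lt _ hd0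
      refine ⟨(D u - i) % d0, hlt, Or.inr ?_⟩
      have h1 := hDit ((D u - i) % d0) u hu (by omega)
      have h2 : (D u - (D u - i) % d0) % d0 = i := by
        have e1 := Nat.div_add_mod (D u - i) d0
        have e2 : D u - (D u - i) % d0 = i + d0 * ((D u - i) / d0) := by omega
        rw [e2, Nat.add_mul_mod_self_left, Nat.mod_eq_of_lt hi]
      have h5 : f^[(D u - i) % d0] u ∈ S ∧ D (f^[(D u - i) % d0] u) % d0 = i :=
        ⟨hSit _ u hu, by rw [h1]; exact h2⟩
      simp only
      rw [if_pos h5]
      simp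
  · intro m hmr hm
    by_cases hmS : m ∈ S ∧ D m % d0 = i
    swap
    · simp only [if_neg hmS] at hm; exact absurd rfl hm
    refine ⟨hmS.1, ?_⟩
    have hD0 : D m ≠ 0 := by
      intro h0
      have := hDr m hmS.1
      rw [h0] at this
      exact hmr this
    by_cases hDm : D m < d0
    · exact ⟨D m, by omega, by omega, Or.inl (hDr m hmS.1)⟩
    · push Not at hDm
      refine ⟨d0, hd0, le_rfl, Or.inr ?_⟩
      have h1 := hDit d0 m hmS.1 hDm
      have h2 : D (f^[d0] m) % d0 = i := by
        rw [h1, ← hmS.2]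
        conv_rhs => rw [← Nat.sub_add_cancel hDm, Nat.add_mod_right]
      simp only
      rw [if_pos hmS, if_pos ⟨hSit _ m hmS.1, h2⟩]
      simp only [below]
      rw [Fin.lt_def]
      simp only [Fin.ofNat_eq_cast, Fin.val_natCast]
      have h3 := hDle m hmS.1
      rw [Nat.mod_eq_of_lt (by omega), Nat.mod_eq_of_lt (by omega), h1]
      omega

end Helper42_MA
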