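import Pool.Agent.Helper42_MA.Param

set_option autoImplicit false

namespace Helper42_MA

open Finset Classical Filter

/-- Functions `Fin n → Λ` differing from the default value in at most `K` places. -/
abbrev Sparse (n : ℕ) (Λ : Type) (l0 : Λ) (K : ℕ) : Type :=
  {f : Fin n → Λ // (univ.filter (fun v => f v ≠ l0)).card ≤ K}

noncomputable instance (n : ℕ) (Λ : Type) [Fintype Λ] (l0 : Λ) (K : ℕ) : Fintype (Sparse n Λ l0 K) :=
  Fintype.ofFinite _

instance (n : ℕ) (Λ : Type) (l0 : Λ) (K : ℕ) : Nonempty (Sparse n Λ l0 K) :=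
  ⟨⟨fun _ => l0, by simp⟩⟩

theorem log_card_sparse_le (n : ℕ) (Λ : Type) [Fintype Λ] (l0 : Λ) (K : ℕ) (z : ℝ) (hz : 1 ≤ z) :
    Real.log (Fintype.card (Sparse n Λ l0 K)) ≤ K * Real.log z + n * Fintype.card Λ / z := by
  have hz0 : 0 < z := by linarith
  set w : Λ → ℝ := fun l => if l = l0 then 1 else 1 / z with hw
  have hw0 : ∀ l, 0 ≤ w l := by
    intro l; rw [hw]; simp only; split_ifs <;> positivity
  have h1 : ∑ f : Fin n → Λ, ∏ v, w (f v) = (∑ l, w l) ^ n := by
    have := Finset.prod_univ_sum (fun _ : Fin n => (univ : Finset Λ)) (fun _ l => w l)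
    rw [Fintype.piFinset_univ] at this
    rw [← this]; simp
  have h2 : ∑ l, w l ≤ 1 + Fintype.card Λ / z := by
    rw [← Finset.add_sum_erase univ w (Finset.mem_univ l0)]
    have e1 : w l0 = 1 := by simp [hw]
    have e2 : ∑ l ∈ univ.erase l0, w l ≤ ∑ l ∈ univ.erase l0, 1 / z := by
      apply Finset.sum_le_sum
      intro l hl
      rw [hw]
      simp only
      rw [if_neg (Finset.ne_of_mem_erase hl)]
    have e3 : ∑ l ∈ univ.erase l0, (1 / z : ℝ) ≤ Fintype.card Λ / z := by
      rw [Finset.sum_const, nsmul_eq_mul, mul_one_div]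
      gcongr
      rw [← Finset.card_univ]
      exact Finset.card_erase_le
    linarith
  have h3 : (∑ l, w l) ^ n ≤ Real.exp (n * Fintype.card Λ / z) := by
    calc (∑ l, w l) ^ n ≤ (Real.exp (Fintype.card Λ / z)) ^ n := by
          apply pow_le_pow_left₀ (Finset.sum_nonneg fun l _ => hw0 l)
          refine h2.trans ?_
          have := Real.add_one_le_exp ((Fintype.card Λ : ℝ) / z)
          linarith
      _ = Real.exp (n * Fintype.card Λ / z) := by
          rw [← Real.exp_nat_mul]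
          congr 1
          ring
  -- lower bound on the sum
  have h4 : (Fintype.card (Sparse n Λ l0 K) : ℝ) * (1 / z) ^ K ≤ ∑ f : Fin n → Λ, ∏ v, w (f v) := by
    have e1 : (Fintype.card (Sparse n Λ l0 K) : ℝ) * (1 / z) ^ K
        = ∑ f : Sparse n Λ l0 K, (1 / z) ^ K := by
      simp
    rw [e1]
    calc ∑ f : Sparse n Λ l0 K, (1 / z) ^ K ≤ ∑ f : Sparse n Λ l0 K, ∏ v, w (f.1 v) := by
          apply Finset.sum_le_sum
          intro f _
          have e2 : ∏ v, w (f.1 v) = (1 / z) ^ (univ.filter (fun v => f.1 v ≠ l0)).card := by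
            rw [hw]
            simp only
            rw [Finset.prod_ite]
            simp
          rw [e2]
          apply pow_le_pow_of_le_one (by positivity)
          · rw [div_le_one hz0]; exact hz
          · exact f.2
      _ = ∑ f ∈ univ.filter (fun f : Fin n → Λ => (univ.filter (fun v => f v ≠ l0)).card ≤ K),
          ∏ v, w (f v) := by
          symm
          apply Finset.sum_subtype
          simp
      _ ≤ ∑ f : Fin n → Λ, ∏ v, w (f v) := by
          apply Finset.sum_le_sum_of_subset_of_nonneg (Finset.filter_subset _ _)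
          intro f _ _
          exact Finset.prod_nonneg fun v _ => hw0 _
  have hcard : (0:ℝ) < Fintype.card (Sparse n Λ l0 K) := by
    exact_mod_cast Fintype.card_pos
  have h5 : (Fintype.card (Sparse n Λ l0 K) : ℝ) * (1 / z) ^ K ≤ Real.exp (n * Fintype.card Λ / z) :=
    h4.trans (h1.le.trans h3)
  have h6 := Real.log_le_log (by positivity) h5
  rw [Real.log_exp, Real.log_mul hcard.ne' (by positivity), Real.log_pow, one_div, Real.log_inv] at h6
  linarith

theorem clog_le_log (m : ℕ) (hm : 1 ≤ m) : (Nat.clog 2 m : ℝ) ≤ 2 * Real.log m + 1 := by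
  rcases hm.eq_or_lt with h | h
  · rw [← h]; simp
  · have h1 := Nat.pow_pred_clog_lt_self (b := 2) (by norm_num) h
    have h2 : ((2:ℝ)) ^ (Nat.clog 2 m - 1) ≤ m := by exact_mod_cast h1.le
    have h3 := Real.log_le_log (by positivity) h2
    rw [Real.log_pow] at h3
    have hpos : 0 < Nat.clog 2 m := Nat.clog_pos (by norm_num) h
    have e4 : ((Nat.clog 2 m - 1 : ℕ) : ℝ) = (Nat.clog 2 m : ℝ) - 1 := by
      rw [Nat.cast_sub (by omega)]; simp
    rw [e4] at h3
    have h4 := Real.log_two_gt_d9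
    have h5 : (0:ℝ) ≤ (Nat.clog 2 m : ℝ) - 1 := by
      have : (1:ℝ) ≤ Nat.clog 2 m := by exact_mod_cast hpos
      linarith
    nlinarith

/-- **Engine, final form.** -/
theorem engine_final : ∃ N0 : ℕ, ∀ n : ℕ, N0 ≤ n → ∀ (c d : ℕ),
    c ≤ 8 * Nat.clog 2 n → 40 * (Nat.clog 2 (Nat.clog 2 n) * d) ≤ Nat.clog 2 n →
    ∀ (W : Type) [Fintype W] [Nonempty W]
    (cA cB : W → SimpleGraph (Fin n) → Prop)
    (α : W → SimpleGraph (Fin n) → Fin n → Fin c → Bool)
    (Ψ : W → SimpleGraph (Fin n) → (Fin d → Fin n) → (Fin d → Fin c → Bool) → Prop)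
    (YES NO : SimpleGraph (Fin n) → SimpleGraph (Fin n) → Prop)
    (_ : ∀ x y, YES x y → ∃ w, cA w x ∧ cB w y ∧ ∀ v, ¬ Ψ w y v (fun k => α w x (v k)))
    (_ : ∀ x y, NO x y → ∀ w, cA w x → cB w y → ∃ v, Ψ w y v (fun k => α w x (v k))),
    HasMA n (2 * Real.log (Fintype.card W) + 1 + n / Nat.clog 2 n) YES NO := by
  obtain ⟨N0, hN0⟩ := engine_param
  refine ⟨N0, fun n hn c d hc hd W _ _ cA cB α Ψ YES NO hyes hno => ?_⟩
  have h := hN0 n hn c d (Nat.clog 2 (Fintype.card W)) hc hd W cA cB α Ψ YES NO hyes hno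
    (Nat.le_pow_clog (by norm_num) _)
  refine h.mono ?_ (fun _ _ h => h) (fun _ _ h => h)
  have := clog_le_log (Fintype.card W) Fintype.card_pos
  linarith

end Helper42_MA
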