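import Mathlib

set_option autoImplicit false

namespace Helper42_MA

open Finset Classical

section
variable {F : Type} [Field F] {d D : ℕ}

/-- Evaluate the polynomial in `d` variables given by a table of coefficients (individual degrees
`< D`). -/
def tableEval (T : (Fin d → Fin D) → F) (x : Fin d → F) : F :=
  ∑ e : Fin d → Fin D, T e * ∏ k, x k ^ (e k : ℕ)

theorem tableEval_sub (T S : (Fin d → Fin D) → F) (x : Fin d → F) :
    tableEval (fun e => T e - S e) x = tableEval T x - tableEval S x := by
  simp only [tableEval, sub_mul, Finset.sum_sub_distrib]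

/-- The exponent vector as a finsupp. -/
noncomputable def expo (e : Fin d → Fin D) : Fin d →₀ ℕ := Finsupp.equivFunOnFinite.symm (fun k => (e k : ℕ))

theorem expo_apply (e : Fin d → Fin D) (k : Fin d) : expo e k = (e k : ℕ) := rfl

theorem expo_injective : Function.Injective (expo (d := d) (D := D)) := by
  intro e f h
  funext k
  apply Fin.ext
  have := DFunLike.congr_fun h k
  simpa [expo_apply] using this

/-- The table as a multivariate polynomial. -/
noncomputable def tablePoly (T : (Fin d → Fin D) → F) : MvPolynomial (Fin d) F :=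
  ∑ e : Fin d → Fin D, MvPolynomial.monomial (expo e) (T e)

theorem eval_tablePoly (T : (Fin d → Fin D) → F) (x : Fin d → F) :
    MvPolynomial.eval x (tablePoly T) = tableEval T x := by
  simp only [tablePoly, tableEval, map_sum, MvPolynomial.eval_monomial]
  refine Finset.sum_congr rfl fun e _ => ?_
  congr 1
  rw [Finsupp.prod_fintype _ _ (fun i => pow_zero _)]
  rfl

theorem coeff_tablePoly (T : (Fin d → Fin D) → F) (e : Fin d → Fin D) :
    MvPolynomial.coeff (expo e) (tablePoly T) = T e := by
  simp only [tablePoly, MvPolynomial.coeff_sum, MvPolynomial.coeff_monomial]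
  rw [Finset.sum_eq_single e]
  · simp
  · intro b _ hb
    rw [if_neg]
    intro h; exact hb (expo_injective h)
  · simp

theorem tablePoly_ne_zero {T : (Fin d → Fin D) → F} (hT : T ≠ 0) : tablePoly T ≠ 0 := by
  intro h
  apply hT
  funext e
  rw [← coeff_tablePoly T e, h]
  simp

theorem degreeOf_tablePoly (T : (Fin d → Fin D) → F) (k : Fin d) :
    MvPolynomial.degreeOf k (tablePoly T) ≤ D := by
  rw [MvPolynomial.degreeOf_le_iff]
  intro m hm
  have : m ∈ Finset.univ.biUnion (fun e : Fin d → Fin D =>
      (MvPolynomial.monomial (expo e) (T e)).support) := by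
    exact MvPolynomial.support_sum hm
  simp only [Finset.mem_biUnion, Finset.mem_univ, true_and] at this
  obtain ⟨e, he⟩ := this
  have := MvPolynomial.support_monomial_subset he
  simp only [Finset.mem_singleton] at this
  rw [this, expo_apply]
  exact (e k).2.le

/-- Schwartz–Zippel for tables: a nonzero table vanishes on at most a `d * D / q` fraction. -/
theorem card_zeros_le [Fintype F] {T : (Fin d → Fin D) → F} (hT : T ≠ 0) :
    (univ.filter (fun x : Fin d → F => tableEval T x = 0)).card * Fintype.card F
      ≤ d * D * Fintype.card F ^ d := by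
  have h := MvPolynomial.schwartz_zippel_sum_degreeOf (tablePoly_ne_zero hT)
    (fun _ => (univ : Finset F))
  have hq : (0 : ℚ≥0) < Fintype.card F := by
    exact_mod_cast Fintype.card_pos
  have e1 : (Finset.filter (fun x : Fin d → F => MvPolynomial.eval x (tablePoly T) = 0)
      (Fintype.piFinset fun _ : Fin d => (univ : Finset F)))
      = univ.filter (fun x : Fin d → F => tableEval T x = 0) := by
    ext x
    simp [eval_tablePoly]
  rw [e1] at h
  have e2 : ∏ i : Fin d, ((univ : Finset F).card : ℚ≥0) = (Fintype.card F : ℚ≥0) ^ d := by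
    simp
  rw [e2] at h
  have e3 : ∑ i : Fin d, ((MvPolynomial.degreeOf i (tablePoly T) : ℚ≥0) / ((univ : Finset F).card : ℚ≥0))
      ≤ d * D / Fintype.card F := by
    calc _ ≤ ∑ i : Fin d, ((D : ℚ≥0) / (Fintype.card F : ℚ≥0)) := by
          apply Finset.sum_le_sum
          intro i _
          rw [Finset.card_univ]
          gcongr
          exact degreeOf_tablePoly T i
      _ = _ := by simp [mul_div_assoc]
  have h2 := h.trans e3
  rw [div_le_div_iff₀ (by positivity) hq] at h2
  exact_mod_cast h2

/-- A sum of products of univariate polynomials of degree `< D` is given by a table. -/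
noncomputable def sumTable {ι : Type} [Fintype ι] (P : ι → Fin d → Polynomial F)
    (e : Fin d → Fin D) : F :=
  ∑ τ : ι, ∏ k, (P τ k).coeff (e k)

theorem tableEval_sumTable {ι : Type} [Fintype ι] (P : ι → Fin d → Polynomial F)
    (hP : ∀ τ k, (P τ k).natDegree < D) (x : Fin d → F) :
    tableEval (sumTable (D := D) P) x = ∑ τ : ι, ∏ k, (P τ k).eval (x k) := by
  have h1 : ∀ τ : ι, ∏ k, (P τ k).eval (x k)
      = ∑ e : Fin d → Fin D, (∏ k, (P τ k).coeff (e k)) * ∏ k, x k ^ (e k : ℕ) := by
    intro τ
    have h2 : ∀ k, (P τ k).eval (x k) = ∑ j : Fin D, (P τ k).coeff j * x k ^ (j : ℕ) := by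
      intro k
      rw [Polynomial.eval_eq_sum_range' (hP τ k), ← Fin.sum_univ_eq_sum_range
        (fun i => (P τ k).coeff i * x k ^ i) D]
    simp_rw [h2]
    rw [Finset.prod_univ_sum]
    simp only [Fintype.piFinset_univ, Finset.prod_mul_distrib]
  simp_rw [h1]
  rw [Finset.sum_comm]
  unfold tableEval sumTable
  refine Finset.sum_congr rfl fun e _ => ?_
  rw [Finset.sum_mul]

end

end Helper42_MA
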