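import Pool.Agent.Helper42_MA.Proto
import Pool.Agent.Helper42_MA.Poly

set_option autoImplicit false

namespace Helper42_MA

open Finset Classical Polynomial

section
variable {q : ℕ} [Fact q.Prime] {n d c t s : ℕ}

/-- Lagrange basis polynomial on the points `0, …, t-1` of `ZMod q`. -/
noncomputable def lag (q t : ℕ) [Fact q.Prime] (a : ℕ) : Polynomial (ZMod q) :=
  Lagrange.basis (Finset.range t) (fun a => (a : ZMod q)) a

theorem cast_injOn (hqt : t ≤ q) :
    Set.InjOn (fun a : ℕ => (a : ZMod q)) (Finset.range t : Finset ℕ) := by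
  intro a ha b hb h
  simp only [Finset.coe_range, Set.mem_Iio] at ha hb
  have := (ZMod.natCast_eq_natCast_iff' a b q).mp h
  rwa [Nat.mod_eq_of_lt (ha.trans_le hqt), Nat.mod_eq_of_lt (hb.trans_le hqt)] at this

theorem lag_self (hqt : t ≤ q) {a : ℕ} (ha : a < t) : (lag q t a).eval (a : ZMod q) = 1 :=
  Lagrange.eval_basis_self (v := fun a : ℕ => (a : ZMod q)) (cast_injOn hqt) (Finset.mem_range.mpr ha)

theorem lag_ne {a b : ℕ} (hab : a ≠ b) (hb : b < t) : (lag q t a).eval (b : ZMod q) = 0 :=
  Lagrange.eval_basis_of_ne (v := fun a : ℕ => (a : ZMod q)) hab (Finset.mem_range.mpr hb)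

theorem natDegree_lag (hqt : t ≤ q) {a : ℕ} (ha : a < t) : (lag q t a).natDegree ≤ t - 1 := by
  rw [lag, Lagrange.natDegree_basis (cast_injOn hqt) (Finset.mem_range.mpr ha), Finset.card_range]

/-- Bit as a field element. -/
def bitF (q : ℕ) (b : Bool) : ZMod q := if b then 1 else 0

/-- `χ β z`: `z` if `β`, `1 - z` otherwise. -/
def chi {R : Type} [Ring R] (b : Bool) (z : R) : R := if b then z else 1 - z

/-- Folded column `l`, bit `j` of the table `α`. -/
noncomputable def colPoly (q t s : ℕ) [Fact q.Prime] (α : Fin n → Fin c → Bool) (l : Fin s)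
    (j : Fin c) : Polynomial (ZMod q) :=
  ∑ u : Fin n, if (u : ℕ) % s = (l : ℕ) then C (bitF q (α u j)) * lag q t ((u : ℕ) / s) else 0

theorem natDegree_colPoly (hqt : t ≤ q) (hts : n ≤ t * s) (hs : 0 < s) (α : Fin n → Fin c → Bool)
    (l : Fin s) (j : Fin c) : (colPoly q t s α l j).natDegree ≤ t - 1 := by
  unfold colPoly
  apply Polynomial.natDegree_sum_le_of_forall_le
  intro u _
  split_ifs
  · refine (Polynomial.natDegree_C_mul_le _ _).trans (natDegree_lag hqt ?_)
    rw [Nat.div_lt_iff_lt_mul hs]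
    exact u.2.trans_le hts
  · simp

theorem eval_colPoly (hqt : t ≤ q) (hts : n ≤ t * s) (hs : 0 < s) (α : Fin n → Fin c → Bool)
    (v : Fin n) (j : Fin c) :
    (colPoly q t s α ⟨(v : ℕ) % s, Nat.mod_lt _ hs⟩ j).eval (((v : ℕ) / s : ℕ) : ZMod q)
      = bitF q (α v j) := by
  unfold colPoly
  rw [Polynomial.eval_finsetSum, Finset.sum_eq_single v]
  · have hv : (v : ℕ) / s < t := by
      rw [Nat.div_lt_iff_lt_mul hs]; exact v.2.trans_le hts
    simp [lag_self hqt hv]
  · intro u _ huv
    split_ifs with h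
    · have hv : (v : ℕ) / s < t := by
        rw [Nat.div_lt_iff_lt_mul hs]; exact v.2.trans_le hts
      rw [Polynomial.eval_mul, lag_ne _ hv, mul_zero]
      intro h2
      apply huv
      apply Fin.ext
      have e1 := Nat.div_add_mod (u : ℕ) s
      have e2 := Nat.div_add_mod (v : ℕ) s
      simp only at h
      rw [h, h2] at e1
      omega
    · simp
  · simp

/-- The univariate factor attached to a vertex and a possible table value. -/
noncomputable def vPoly (q t s : ℕ) [Fact q.Prime] (hs : 0 < s) (α : Fin n → Fin c → Bool) (v : Fin n)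
    (β : Fin c → Bool) : Polynomial (ZMod q) :=
  lag q t ((v : ℕ) / s) *
    ∏ j : Fin c, chi (β j) (colPoly q t s α ⟨(v : ℕ) % s, Nat.mod_lt _ hs⟩ j)

theorem natDegree_chi_le {b : Bool} {P : Polynomial (ZMod q)} {m : ℕ} (h : P.natDegree ≤ m) :
    (chi b P).natDegree ≤ m := by
  unfold chi
  split_ifs
  · exact h
  · refine (Polynomial.natDegree_sub_le _ _).trans ?_
    simp [h]

theorem natDegree_vPoly (hqt : t ≤ q) (hts : n ≤ t * s) (hs : 0 < s) (ht : 0 < t)
    (α : Fin n → Fin c → Bool)
    (v : Fin n) (β : Fin c → Bool) : (vPoly q t s hs α v β).natDegree < t * (c + 1) := by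
  have hv : (v : ℕ) / s < t := by
    rw [Nat.div_lt_iff_lt_mul hs]; exact v.2.trans_le hts
  have h1 : (vPoly q t s hs α v β).natDegree ≤ (t - 1) + ∑ j : Fin c, (t - 1) := by
    unfold vPoly
    refine Polynomial.natDegree_mul_le.trans (add_le_add (natDegree_lag hqt hv) ?_)
    refine (Polynomial.natDegree_prod_le _ _).trans (Finset.sum_le_sum fun j _ => ?_)
    exact natDegree_chi_le (natDegree_colPoly hqt hts hs α _ j)
  refine h1.trans_lt ?_
  simp only [Finset.sum_const, Finset.card_univ, Fintype.card_fin, smul_eq_mul]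
  have : (t - 1) + c * (t - 1) = (t - 1) * (c + 1) := by ring
  rw [this]
  exact Nat.mul_lt_mul_of_pos_right (by omega) (by omega)

theorem chi_bit (b b' : Bool) : chi b (bitF q b') = if b = b' then 1 else 0 := by
  cases b <;> cases b' <;> simp [chi, bitF]

theorem sum_vPoly (hqt : t ≤ q) (hts : n ≤ t * s) (hs : 0 < s)
    (α : Fin n → Fin c → Bool) (v : Fin n) (β : Fin c → Bool) :
    ∑ a : Fin t, (vPoly q t s hs α v β).eval ((a : ℕ) : ZMod q) = if β = α v then 1 else 0 := by
  have hv : (v : ℕ) / s < t := by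
    rw [Nat.div_lt_iff_lt_mul hs]; exact v.2.trans_le hts
  rw [Finset.sum_eq_single (⟨(v : ℕ) / s, hv⟩ : Fin t)]
  · unfold vPoly
    rw [Polynomial.eval_mul, lag_self hqt hv, one_mul, Polynomial.eval_prod]
    have h1 : ∀ j : Fin c, (chi (β j) (colPoly q t s α ⟨(v : ℕ) % s, Nat.mod_lt _ hs⟩ j)).eval
        (((v : ℕ) / s : ℕ) : ZMod q) = if β j = α v j then 1 else 0 := by
      intro j
      rw [← chi_bit (q := q), ← eval_colPoly hqt hts hs α v j]
      unfold chi
      split_ifs <;> simp
    simp only [h1]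
    by_cases h : β = α v
    · simp [h]
    · rw [if_neg h]
      obtain ⟨j, hj⟩ := Function.ne_iff.mp h
      exact Finset.prod_eq_zero (Finset.mem_univ j) (by rw [if_neg hj])
  · intro a _ ha
    unfold vPoly
    rw [Polynomial.eval_mul, lag_ne, zero_mul]
    · intro h; apply ha; apply Fin.ext; exact h.symm
    · exact a.2
  · simp

/-- Bob's side of the evaluation, computed from Alice's message. -/
noncomputable def bobVal (q t s : ℕ) [Fact q.Prime] (hs : 0 < s)
    (Ψ : (Fin d → Fin n) → (Fin d → Fin c → Bool) → Prop)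
    (r : Fin d → ZMod q) (msg : Fin d → Fin s → Fin c → ZMod q) : ZMod q :=
  ∑ τ : {τ : (Fin d → Fin n) × (Fin d → Fin c → Bool) // Ψ τ.1 τ.2},
    ∏ k, ((lag q t ((τ.1.1 k : ℕ) / s)).eval (r k) *
      ∏ j : Fin c, chi (τ.1.2 k j) (msg k ⟨(τ.1.1 k : ℕ) % s, Nat.mod_lt _ hs⟩ j))

/-- The honest table. -/
noncomputable def trueTable (q t s : ℕ) [Fact q.Prime] (hs : 0 < s)
    (Ψ : (Fin d → Fin n) → (Fin d → Fin c → Bool) → Prop) (α : Fin n → Fin c → Bool) :
    (Fin d → Fin (t * (c + 1))) → ZMod q :=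
  sumTable (fun (τ : {τ : (Fin d → Fin n) × (Fin d → Fin c → Bool) // Ψ τ.1 τ.2}) k =>
    vPoly q t s hs α (τ.1.1 k) (τ.1.2 k))

theorem tableEval_trueTable (hqt : t ≤ q) (hts : n ≤ t * s) (hs : 0 < s) (ht : 0 < t)
    (Ψ : (Fin d → Fin n) → (Fin d → Fin c → Bool) → Prop) (α : Fin n → Fin c → Bool)
    (r : Fin d → ZMod q) :
    tableEval (trueTable q t s hs Ψ α) r
      = bobVal q t s hs Ψ r (fun k l j => (colPoly q t s α l j).eval (r k)) := by
  unfold trueTable
  rw [tableEval_sumTable _ (fun τ k => natDegree_vPoly hqt hts hs ht α _ _)]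
  unfold bobVal
  refine Finset.sum_congr rfl fun τ _ => Finset.prod_congr rfl fun k _ => ?_
  unfold vPoly
  rw [Polynomial.eval_mul, Polynomial.eval_prod]
  congr 1
  refine Finset.prod_congr rfl fun j _ => ?_
  unfold chi
  split_ifs <;> simp

/-- The grid sum of the honest table counts the bad tuples. -/
theorem gridSum_trueTable (hqt : t ≤ q) (hts : n ≤ t * s) (hs : 0 < s) (ht : 0 < t)
    (Ψ : (Fin d → Fin n) → (Fin d → Fin c → Bool) → Prop) (α : Fin n → Fin c → Bool) :
    ∑ a : Fin d → Fin t, tableEval (trueTable q t s hs Ψ α) (fun k => ((a k : ℕ) : ZMod q))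
      = ((univ.filter (fun v : Fin d → Fin n => Ψ v (fun k => α (v k)))).card : ZMod q) := by
  unfold trueTable
  have h1 : ∀ a : Fin d → Fin t, tableEval (sumTable (D := t * (c + 1))
      (fun (τ : {τ : (Fin d → Fin n) × (Fin d → Fin c → Bool) // Ψ τ.1 τ.2}) k =>
      vPoly q t s hs α (τ.1.1 k) (τ.1.2 k))) (fun k => ((a k : ℕ) : ZMod q))
      = ∑ τ : {τ : (Fin d → Fin n) × (Fin d → Fin c → Bool) // Ψ τ.1 τ.2},
        ∏ k, (vPoly q t s hs α (τ.1.1 k) (τ.1.2 k)).eval ((a k : ℕ) : ZMod q) := by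
    intro a
    rw [tableEval_sumTable _ (fun τ k => natDegree_vPoly hqt hts hs ht α _ _)]
  rw [Finset.sum_congr rfl fun a _ => h1 a, Finset.sum_comm]
  have h2 : ∀ τ : {τ : (Fin d → Fin n) × (Fin d → Fin c → Bool) // Ψ τ.1 τ.2},
      ∑ a : Fin d → Fin t, ∏ k, (vPoly q t s hs α (τ.1.1 k) (τ.1.2 k)).eval ((a k : ℕ) : ZMod q)
        = if τ.1.2 = (fun k => α (τ.1.1 k)) then 1 else 0 := by
    intro τ
    have h3 := Finset.prod_univ_sum (fun _ : Fin d => (univ : Finset (Fin t)))
      (fun k a => (vPoly q t s hs α (τ.1.1 k) (τ.1.2 k)).eval ((a : ℕ) : ZMod q))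
    rw [Fintype.piFinset_univ] at h3
    rw [← h3]
    simp only [sum_vPoly hqt hts hs α]
    by_cases h : τ.1.2 = (fun k => α (τ.1.1 k))
    · rw [if_pos h]
      apply Finset.prod_eq_one
      intro k _
      rw [if_pos (congrFun h k)]
    · rw [if_neg h]
      obtain ⟨k, hk⟩ := Function.ne_iff.mp h
      exact Finset.prod_eq_zero (Finset.mem_univ k) (by rw [if_neg hk])
  rw [Finset.sum_congr rfl fun τ _ => h2 τ, Finset.sum_boole]
  congr 1
  apply Finset.card_bij (fun τ _ => τ.1.1)
  · intro τ hτ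
    simp only [Finset.mem_filter, Finset.mem_univ, true_and] at hτ ⊢
    rw [← hτ]; exact τ.2
  · intro τ hτ τ' hτ' h
    simp only [Finset.mem_filter, Finset.mem_univ, true_and] at hτ hτ'
    apply Subtype.ext
    apply Prod.ext h
    rw [hτ, hτ', h]
  · intro v hv
    simp only [Finset.mem_filter, Finset.mem_univ, true_and] at hv
    exact ⟨⟨(v, fun k => α (v k)), hv⟩, by simp, rfl⟩

end

/-- **Engine.**  A promise problem whose YES instances admit an explicit certificate in `W` with no
bad tuple and whose NO instances have a bad tuple for every certificate (passing the local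
checks) has a one-way Merlin–Arthur protocol. -/
theorem engine {n d c t s q : ℕ} [hq : Fact q.Prime] (hs : 0 < s) (ht : 0 < t) (hts : n ≤ t * s)
    (hqt : t ≤ q) (hqn : n ^ d < q) (hqD : 3 * (d * (t * (c + 1))) ≤ q)
    {W : Type} [Fintype W] [Nonempty W]
    (cA cB : W → SimpleGraph (Fin n) → Prop)
    (α : W → SimpleGraph (Fin n) → Fin n → Fin c → Bool)
    (Ψ : W → SimpleGraph (Fin n) → (Fin d → Fin n) → (Fin d → Fin c → Bool) → Prop)
    {YES NO : SimpleGraph (Fin n) → SimpleGraph (Fin n) → Prop}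
    (hyes : ∀ x y, YES x y → ∃ w, cA w x ∧ cB w y ∧ ∀ v, ¬ Ψ w y v (fun k => α w x (v k)))
    (hno : ∀ x y, NO x y → ∀ w, cA w x → cB w y → ∃ v, Ψ w y v (fun k => α w x (v k)))
    {p0 b : ℕ} (hW : Fintype.card W ≤ 2 ^ p0) (hb : q ≤ 2 ^ b) :
    HasMA n ((p0 + b * (t * (c + 1)) ^ d + (b * (d * s * c) + 1) : ℕ) : ℝ) YES NO := by
  have hcardF : Fintype.card (ZMod q) = q := ZMod.card q
  have hqpos : 0 < q := hq.out.pos
  refine HasMA.of_finite (Fin d → ZMod q)
    (W × ((Fin d → Fin (t * (c + 1))) → ZMod q)) (Bool × (Fin d → Fin s → Fin c → ZMod q))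
    ?_ ?_
    (fun r w x => (decide (cA w.1 x), fun k l j => (colPoly q t s (α w.1 x) l j).eval (r k)))
    (fun r w y z => decide (z.1 = true ∧ cB w.1 y ∧
      ∑ a : Fin d → Fin t, tableEval w.2 (fun k => ((a k : ℕ) : ZMod q)) = 0 ∧
      tableEval w.2 r = bobVal q t s hs (Ψ w.1 y) r z.2)) ?_ ?_
  · rw [Fintype.card_prod, Fintype.card_fun, Fintype.card_fun, hcardF, Fintype.card_fin,
      Fintype.card_fin, pow_add]
    refine Nat.mul_le_mul hW ?_
    rw [pow_mul]
    exact Nat.pow_le_pow_left hb _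
  · rw [Fintype.card_prod, Fintype.card_fun, Fintype.card_fun, Fintype.card_fun, hcardF,
      Fintype.card_fin, Fintype.card_fin, Fintype.card_fin, Fintype.card_bool]
    rw [pow_add, pow_mul, mul_comm]
    refine Nat.mul_le_mul ?_ (by norm_num)
    rw [← pow_mul, ← pow_mul]
    have : c * (s * d) = d * s * c := by ring
    rw [this]
    exact Nat.pow_le_pow_left hb _
  · intro x y hxy
    obtain ⟨w, hA, hB, hΨ⟩ := hyes x y hxy
    refine ⟨(w, trueTable q t s hs (Ψ w y) (α w x)), ?_⟩
    have : (univ.filter (fun r : Fin d → ZMod q => decide ((decide (cA w x)) = true ∧ cB w y ∧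
      ∑ a : Fin d → Fin t, tableEval (trueTable q t s hs (Ψ w y) (α w x))
        (fun k => ((a k : ℕ) : ZMod q)) = 0 ∧
      tableEval (trueTable q t s hs (Ψ w y) (α w x)) r = bobVal q t s hs (Ψ w y) r
        (fun k l j => (colPoly q t s (α w x) l j).eval (r k))) = true)) = univ := by
      apply Finset.filter_true_of_mem
      intro r _
      rw [decide_eq_true_iff]
      refine ⟨by simpa using hA, hB, ?_, tableEval_trueTable hqt hts hs ht _ _ r⟩
      rw [gridSum_trueTable hqt hts hs ht]
      have : (univ.filter (fun v : Fin d → Fin n => Ψ w y v (fun k => α w x (v k)))) = ∅ :=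
        Finset.filter_false_of_mem (fun v _ => hΨ v)
      rw [this]; simp
    simp only
    rw [this, Finset.card_univ]
    omega
  · rintro x y hxy ⟨w, T⟩
    simp only
    by_cases hA : cA w x
    swap
    · rw [Finset.filter_false_of_mem]
      · simp
      · intro r _ h
        rw [decide_eq_true_iff] at h
        exact hA (by simpa using h.1)
    by_cases hB : cB w y
    swap
    · rw [Finset.filter_false_of_mem]
      · simp
      · intro r _ h
        rw [decide_eq_true_iff] at h
        exact hB h.2.1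
    obtain ⟨v, hv⟩ := hno x y hxy w hA hB
    by_cases hsum : ∑ a : Fin d → Fin t, tableEval T (fun k => ((a k : ℕ) : ZMod q)) = 0
    swap
    · rw [Finset.filter_false_of_mem]
      · simp
      · intro r _ h
        rw [decide_eq_true_iff] at h
        exact hsum h.2.2.1
    -- the table differs from the true one
    set T0 := trueTable q t s hs (Ψ w y) (α w x) with hT0
    have hne : (fun e => T e - T0 e) ≠ 0 := by
      intro h0
      have hTT : T = T0 := by
        funext e
        exact sub_eq_zero.mp (congrFun h0 e)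
      rw [hTT, hT0, gridSum_trueTable hqt hts hs ht] at hsum
      rw [ZMod.natCast_eq_zero_iff] at hsum
      have hpos : 0 < (univ.filter (fun v : Fin d → Fin n => Ψ w y v (fun k => α w x (v k)))).card :=
        Finset.card_pos.mpr ⟨v, by simp [hv]⟩
      have hle : (univ.filter (fun v : Fin d → Fin n => Ψ w y v (fun k => α w x (v k)))).card
          ≤ n ^ d := by
        refine (Finset.card_le_univ _).trans ?_
        simp
      have := Nat.le_of_dvd hpos hsum
      omega
    have hz := card_zeros_le hne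
    rw [hcardF] at hz
    have hsub : (univ.filter (fun r : Fin d → ZMod q => decide ((decide (cA w x)) = true ∧ cB w y ∧
      ∑ a : Fin d → Fin t, tableEval T (fun k => ((a k : ℕ) : ZMod q)) = 0 ∧
      tableEval T r = bobVal q t s hs (Ψ w y) r
        (fun k l j => (colPoly q t s (α w x) l j).eval (r k))) = true))
        ⊆ univ.filter (fun r : Fin d → ZMod q => tableEval (fun e => T e - T0 e) r = 0) := by
      intro r hr
      simp only [Finset.mem_filter, Finset.mem_univ, true_and, decide_eq_true_iff] at hr ⊢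
      rw [tableEval_sub, sub_eq_zero, hT0, tableEval_trueTable hqt hts hs ht]
      exact hr.2.2.2
    have hcard := Finset.card_le_card hsub
    rw [Fintype.card_fun, hcardF, Fintype.card_fin]
    set Z := (univ.filter (fun r : Fin d → ZMod q => tableEval (fun e => T e - T0 e) r = 0)).card
    have hz' : Z * q ≤ d * (t * (c + 1)) * q ^ d := by
      convert hz
    have h3 : 3 * Z * q ≤ q ^ d * q := by
      calc 3 * Z * q = 3 * (Z * q) := by ring
        _ ≤ 3 * (d * (t * (c + 1)) * q ^ d) := Nat.mul_le_mul_left _ hz'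
        _ = (3 * (d * (t * (c + 1)))) * q ^ d := by ring
        _ ≤ q * q ^ d := Nat.mul_le_mul_right _ hqD
        _ = q ^ d * q := by ring
    have h4 : 3 * Z ≤ q ^ d := Nat.le_of_mul_le_mul_right h3 hqpos
    omega

end Helper42_MA
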