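import Pool.Agent.Helper42_MA.Explore

set_option autoImplicit false

namespace Helper42_MA

open Finset Classical

section
variable {n : ℕ} {Lab : Type}

/-- Marks: centre label, exit label, entry label. -/
abbrev Mark (Lab : Type) : Type := Option Lab × Option Lab × Option Lab

/-- The chosen centre in a set. -/
noncomputable def ctr (w : Fin n → Mark Lab) (T : Finset (Fin n)) (s : Fin n) : Fin n :=
  if h : (T.filter (fun m => (w m).1 ≠ none)).Nonempty then
    (T.filter (fun m => (w m).1 ≠ none)).min' h else s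

theorem ctr_mem (w : Fin n → Mark Lab) (T : Finset (Fin n)) (s : Fin n)
    (h : ∃ m ∈ T, (w m).1 ≠ none) : ctr w T s ∈ T ∧ (w (ctr w T s)).1 ≠ none := by
  have hne : (T.filter (fun m => (w m).1 ≠ none)).Nonempty := by
    obtain ⟨m, hm, hm2⟩ := h
    exact ⟨m, Finset.mem_filter.mpr ⟨hm, hm2⟩⟩
  unfold ctr
  rw [dif_pos hne]
  exact Finset.mem_filter.mp (Finset.min'_mem _ hne)

def hasEntry (R : Lab → Lab → Prop) (x : SimpleGraph (Fin n)) (w : Fin n → Mark Lab)
    (u : Fin n) : Prop :=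
  ∃ l, (w u).2.1 = some l ∧ ∃ u', x.Reachable u u' ∧ ∃ l', (w u').2.2 = some l' ∧ R l' l

/-- The conditions a certificate has to satisfy. -/
structure Good (R : Lab → Lab → Prop) (x y : SimpleGraph (Fin n)) (T : Fin n → Finset (Fin n))
    (w : Fin n → Mark Lab) (m0 : Fin n) : Prop where
  centre : ∀ s, ∃ m ∈ T s, (w m).1 ≠ none
  entry : ∀ s l, (w s).2.2 = some l → (w (ctr w (T s) s)).1 = some l
  exit1 : ∀ s l, (w s).2.1 = some l → (w (ctr w (T s) s)).1 = some l
  exit2 : ∀ s, (w s).2.1 ≠ none → ctr w (T s) s ≠ m0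
  exit3 : ∀ s, (w s).2.1 ≠ none → hasEntry R x w s ∨ hasEntry R y w s
  inj : ∀ s s', (w s).2.1 ≠ none → (w s').2.1 ≠ none → s ≠ s' →
    ctr w (T s) s ≠ ctr w (T s') s'
  count : (univ.filter (fun s => (w s).2.1 ≠ none)).card + 1
    = (univ.filter (fun s => (w s).1 ≠ none)).card
  root : (w m0).1 ≠ none

theorem Good.sound {R : Lab → Lab → Prop} {x y : SimpleGraph (Fin n)} {T : Fin n → Finset (Fin n)}
    {w : Fin n → Mark Lab} {m0 : Fin n} (h : Good R x y T w m0)
    (hT : ∀ s, ∀ m ∈ T s, (x ⊔ y).Reachable s m) :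
    (∀ s, ∃ m, (w m).1 ≠ none ∧ (x ⊔ y).Reachable s m) ∧
    (∀ m l, m ≠ m0 → (w m).1 = some l → ∃ m' l', (x ⊔ y).Reachable m m' ∧ (w m').1 = some l' ∧
      R l' l) := by
  refine ⟨fun s => ?_, fun m l hm0 hml => ?_⟩
  · obtain ⟨m, hm, hm2⟩ := h.centre s
    exact ⟨m, hm2, hT s m hm⟩
  · -- surjectivity of exits onto non-root centres
    set X := univ.filter (fun s => (w s).2.1 ≠ none) with hX
    set M := univ.filter (fun s => (w s).1 ≠ none) with hM
    have himg : X.image (fun s => ctr w (T s) s) ⊆ M.erase m0 := by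
      intro u hu
      obtain ⟨s, hs, rfl⟩ := Finset.mem_image.mp hu
      rw [hX, Finset.mem_filter] at hs
      rw [Finset.mem_erase]
      refine ⟨h.exit2 s hs.2, ?_⟩
      rw [hM, Finset.mem_filter]
      exact ⟨Finset.mem_univ _, (ctr_mem w (T s) s (h.centre s)).2⟩
    have hcard : (X.image (fun s => ctr w (T s) s)).card = X.card := by
      apply Finset.card_image_of_injOn
      intro s hs s' hs' hss
      by_contra hne
      rw [Finset.mem_coe, hX, Finset.mem_filter] at hs hs'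
      exact h.inj s s' hs.2 hs'.2 hne hss
    have hm0M : m0 ∈ M := by rw [hM, Finset.mem_filter]; exact ⟨Finset.mem_univ _, h.root⟩
    have hcardM : (M.erase m0).card = X.card := by
      rw [Finset.card_erase_of_mem hm0M, ← h.count]; simp [hX]
    have heq : X.image (fun s => ctr w (T s) s) = M.erase m0 :=
      Finset.eq_of_subset_of_card_le himg (by rw [hcard, hcardM])
    have hmM : m ∈ M.erase m0 := by
      rw [Finset.mem_erase, hM, Finset.mem_filter]
      exact ⟨hm0, Finset.mem_univ _, by rw [hml]; simp⟩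
    rw [← heq] at hmM
    obtain ⟨s, hs, hsm⟩ := Finset.mem_image.mp hmM
    replace hsm : ctr w (T s) s = m := hsm
    rw [hX, Finset.mem_filter] at hs
    have hs2 := hs.2
    -- label of the exit
    obtain ⟨ls, hls⟩ : ∃ ls, (w s).2.1 = some ls := Option.ne_none_iff_exists'.mp hs2
    have h1 := h.exit1 s ls hls
    rw [hsm, hml] at h1
    have hl : l = ls := by simpa using h1
    have hsr : (x ⊔ y).Reachable m s := by
      rw [← hsm]
      exact (hT s _ (ctr_mem w (T s) s (h.centre s)).1).symm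
    have key : ∀ z : SimpleGraph (Fin n), z ≤ x ⊔ y → hasEntry R z w s →
        ∃ m' l', (x ⊔ y).Reachable m m' ∧ (w m').1 = some l' ∧ R l' l := by
      rintro z hz ⟨l1, hl1, u', hu', l', hl', hR⟩
      rw [hls] at hl1
      have : l1 = ls := by simpa using hl1.symm
      rw [this, ← hl] at hR
      refine ⟨ctr w (T u') u', l', ?_, h.entry u' l' hl', hR⟩
      exact (hsr.trans (hu'.mono hz)).trans (hT u' _ (ctr_mem w (T u') u' (h.centre u')).1)
    rcases h.exit3 s hs2 with h3 | h3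
    · exact key x le_sup_left h3
    · exact key y le_sup_right h3

/-! ### completeness -/

/-- The graph on centres. -/
def cgraph (G : SimpleGraph (Fin n)) (cl : Fin n → Fin n) : SimpleGraph (Fin n) where
  Adj a b := a ≠ b ∧ ∃ u u', G.Adj u u' ∧ cl u = a ∧ cl u' = b
  symm := ⟨by
    rintro a b ⟨hab, u, u', h1, h2, h3⟩
    exact ⟨hab.symm, u', u, h1.symm, h3, h2⟩⟩
  loopless := ⟨fun a h => h.1 rfl⟩

theorem cgraph_walk (G : SimpleGraph (Fin n)) (cl : Fin n → Fin n) {u u' : Fin n}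
    (p : G.Walk u u') : ∃ p' : (cgraph G cl).Walk (cl u) (cl u'), p'.length ≤ p.length := by
  induction p with
  | nil => exact ⟨SimpleGraph.Walk.nil, le_rfl⟩
  | @cons a b c hadj p ih =>
    obtain ⟨p', hp'⟩ := ih
    by_cases h : cl a = cl b
    · refine ⟨p'.copy h.symm rfl, ?_⟩
      simp only [SimpleGraph.Walk.length_copy, SimpleGraph.Walk.length_cons]
      omega
    · have hadj' : (cgraph G cl).Adj (cl a) (cl b) := ⟨h, a, b, hadj, rfl, rfl⟩
      refine ⟨SimpleGraph.Walk.cons hadj' p', ?_⟩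
      simp only [SimpleGraph.Walk.length_cons]
      omega

theorem exists_good (R : Lab → Lab → Prop) (x y : SimpleGraph (Fin n)) (T : Fin n → Finset (Fin n))
    (hG : (x ⊔ y).Connected) (M0 : Finset (Fin n)) (hM0 : ∀ s, (T s ∩ M0).Nonempty) (r : Fin n)
    (Q : ℕ) (hQ : ∀ u, (x ⊔ y).dist u r ≤ Q) (φ : ℕ → Lab)
    (hφ : ∀ k, k + 1 ≤ Q → R (φ k) (φ (k + 1))) :
    ∃ (w : Fin n → Mark Lab) (m0 : Fin n), Good R x y T w m0 ∧
      (univ.filter (fun v => w v ≠ (none, none, none))).card ≤ 3 * M0.card := by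
  set G := x ⊔ y with hGdef
  -- the cluster map
  set cl : Fin n → Fin n := fun s => (T s ∩ M0).min' (hM0 s) with hcl
  have hclT : ∀ s, cl s ∈ T s := fun s => (Finset.mem_inter.mp (Finset.min'_mem _ (hM0 s))).1
  have hclM0 : ∀ s, cl s ∈ M0 := fun s => (Finset.mem_inter.mp (Finset.min'_mem _ (hM0 s))).2
  set M := univ.image cl with hM
  have hMsub : M ⊆ M0 := by
    intro m hm
    obtain ⟨s, _, rfl⟩ := Finset.mem_image.mp hm
    exact hclM0 s
  have hclM : ∀ s, cl s ∈ M := fun s => Finset.mem_image_of_mem _ (Finset.mem_univ s)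
  set H := cgraph G cl with hH
  set m0 := cl r with hm0
  set D : Fin n → ℕ := fun m => H.dist m m0 with hD
  have hreach : ∀ m ∈ M, H.Reachable m m0 ∧ D m ≤ Q := by
    intro m hm
    obtain ⟨s, _, rfl⟩ := Finset.mem_image.mp hm
    obtain ⟨p, hp⟩ := hG.exists_walk_length_eq_dist s r
    obtain ⟨p', hp'⟩ := cgraph_walk G cl p
    refine ⟨⟨p'⟩, ?_⟩
    calc D (cl s) ≤ p'.length := SimpleGraph.dist_le p'
      _ ≤ p.length := hp'
      _ = G.dist s r := hp
      _ ≤ Q := hQ s
  -- exits and entries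
  have hex : ∀ m : Fin n, ∃ u u' : Fin n, m ∈ M.erase m0 → G.Adj u u' ∧ cl u = m ∧
      D (cl u') + 1 = D m := by
    intro m
    by_cases hm : m ∈ M.erase m0
    · rw [Finset.mem_erase] at hm
      obtain ⟨hr, _⟩ := hreach m hm.2
      obtain ⟨p, hp⟩ := hr.exists_walk_length_eq_dist
      cases p with
      | nil => exact absurd rfl hm.1
      | @cons _ m1 _ hadj p =>
        have hadj2 : m ≠ m1 ∧ ∃ u u', G.Adj u u' ∧ cl u = m ∧ cl u' = m1 := hadj
        obtain ⟨hne, u, u', h1, h2, h3⟩ := hadj2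
        refine ⟨u, u', fun _ => ⟨h1, h2, ?_⟩⟩
        have h4 : D m1 ≤ p.length := SimpleGraph.dist_le p
        have h5 : D m = p.length + 1 := by
          rw [hD]; simp only; rw [← hp, SimpleGraph.Walk.length_cons]
        have hr1 : H.Reachable m1 m0 := ⟨p⟩
        obtain ⟨p1, hp1⟩ := hr1.exists_walk_length_eq_dist
        have h6 : D m ≤ D m1 + 1 := by
          have := SimpleGraph.dist_le (SimpleGraph.Walk.cons hadj p1)
          rw [SimpleGraph.Walk.length_cons, hp1] at this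
          exact this
        rw [h3]
        omega
    · exact ⟨m, m, fun h => absurd h hm⟩
  choose ex en hexen using hex
  set X := (M.erase m0).image ex with hX
  set Y := (M.erase m0).image en with hY
  set w : Fin n → Mark Lab := fun u =>
    (if u ∈ M then some (φ (D u)) else none,
     if u ∈ X then some (φ (D (cl u))) else none,
     if u ∈ Y then some (φ (D (cl u))) else none) with hw
  have hw1 : ∀ u, (w u).1 ≠ none ↔ u ∈ M := by
    intro u; rw [hw]; simp only; split_ifs with h <;> simp [h]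
  have hw2 : ∀ u, (w u).2.1 ≠ none ↔ u ∈ X := by
    intro u; rw [hw]; simp only; split_ifs with h <;> simp [h]
  have hctr : ∀ s, ctr w (T s) s = cl s := by
    intro s
    have hne : ((T s).filter (fun m => (w m).1 ≠ none)).Nonempty :=
      ⟨cl s, Finset.mem_filter.mpr ⟨hclT s, (hw1 _).mpr (hclM s)⟩⟩
    unfold ctr
    rw [dif_pos hne]
    apply le_antisymm
    · exact Finset.min'_le _ _ (Finset.mem_filter.mpr ⟨hclT s, (hw1 _).mpr (hclM s)⟩)
    · apply Finset.min'_le
      have := Finset.mem_filter.mp (Finset.min'_mem _ hne)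
      exact Finset.mem_inter.mpr ⟨this.1, hMsub ((hw1 _).mp this.2)⟩
  have hexinj : Set.InjOn ex (M.erase m0 : Finset (Fin n)) := by
    intro m hm m' hm' h
    have h1 := (hexen m hm).2.1
    have h2 := (hexen m' hm').2.1
    rw [← h1, ← h2, h]
  have hm0M : m0 ∈ M := hclM r
  refine ⟨w, m0, ⟨?_, ?_, ?_, ?_, ?_, ?_, ?_, ?_⟩, ?_⟩
  · intro s
    exact ⟨cl s, hclT s, (hw1 _).mpr (hclM s)⟩
  · intro s l hl
    rw [hctr]
    have hsY : s ∈ Y := by
      by_contra hcon
      rw [hw] at hl; simp only at hl; rw [if_neg hcon] at hl; exact absurd hl (by simp)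
    rw [hw] at hl ⊢
    simp only at hl ⊢
    rw [if_pos hsY] at hl
    rw [if_pos (hclM s)]
    exact hl
  · intro s l hl
    rw [hctr]
    have hsX : s ∈ X := (hw2 s).mp (by rw [hl]; simp)
    rw [hw] at hl ⊢
    simp only at hl ⊢
    rw [if_pos hsX] at hl
    rw [if_pos (hclM s)]
    exact hl
  · intro s hs
    rw [hctr]
    obtain ⟨m, hm, rfl⟩ := Finset.mem_image.mp ((hw2 s).mp hs)
    rw [(hexen m hm).2.1]
    exact (Finset.mem_erase.mp hm).1
  · intro s hs
    have hsX := (hw2 s).mp hs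
    obtain ⟨m, hm, rfl⟩ := Finset.mem_image.mp hsX
    obtain ⟨h1, h2, h3⟩ := hexen m hm
    have hen : en m ∈ Y := Finset.mem_image_of_mem _ hm
    have hlab1 : (w (ex m)).2.1 = some (φ (D m)) := by
      rw [hw]; simp only; rw [if_pos hsX, h2]
    have hlab2 : (w (en m)).2.2 = some (φ (D (cl (en m)))) := by
      rw [hw]; simp only; rw [if_pos hen]
    have hR : R (φ (D (cl (en m)))) (φ (D m)) := by
      rw [← h3]
      apply hφ
      rw [h3]
      exact (hreach m (Finset.mem_erase.mp hm).2).2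
    rw [hGdef, SimpleGraph.sup_adj] at h1
    rcases h1 with h1 | h1
    · left; exact ⟨_, hlab1, en m, h1.reachable, _, hlab2, hR⟩
    · right; exact ⟨_, hlab1, en m, h1.reachable, _, hlab2, hR⟩
  · intro s s' hs hs' hne
    rw [hctr, hctr]
    obtain ⟨m, hm, rfl⟩ := Finset.mem_image.mp ((hw2 s).mp hs)
    obtain ⟨m', hm', rfl⟩ := Finset.mem_image.mp ((hw2 s').mp hs')
    rw [(hexen m hm).2.1, (hexen m' hm').2.1]
    intro h; exact hne (by rw [h])
  · have e1 : univ.filter (fun s => (w s).2.1 ≠ none) = X := by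
      ext u; simp only [Finset.mem_filter, Finset.mem_univ, true_and]; exact hw2 u
    have e2 : univ.filter (fun s => (w s).1 ≠ none) = M := by
      ext u; simp only [Finset.mem_filter, Finset.mem_univ, true_and]; exact hw1 u
    rw [e1, e2, hX, Finset.card_image_of_injOn hexinj, Finset.card_erase_of_mem hm0M]
    have : 0 < M.card := Finset.card_pos.mpr ⟨m0, hm0M⟩
    omega
  · exact (hw1 m0).mpr hm0M
  · have hsub : univ.filter (fun v => w v ≠ (none, none, none)) ⊆ M ∪ (X ∪ Y) := by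
      intro u hu
      rw [Finset.mem_filter] at hu
      by_contra hcon
      simp only [Finset.mem_union, not_or] at hcon
      apply hu.2
      rw [hw]; simp only
      rw [if_neg hcon.1, if_neg hcon.2.1, if_neg hcon.2.2]
    have h1 := Finset.card_le_card hsub
    have h2 := Finset.card_union_le M (X ∪ Y)
    have h3 := Finset.card_union_le X Y
    have h4 : X.card ≤ M.card :=
      Finset.card_image_le.trans (Finset.card_le_card (Finset.erase_subset _ _))
    have h5 : Y.card ≤ M.card :=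
      Finset.card_image_le.trans (Finset.card_le_card (Finset.erase_subset _ _))
    have h6 := Finset.card_le_card hMsub
    omega

/-! ### bad tuples -/

/-- Alice's pointer function. -/
noncomputable def ptr (x : SimpleGraph (Fin n)) : Fin n → Fin n := (exists_pointer x).choose

theorem ptr_reachable (x : SimpleGraph (Fin n)) (v : Fin n) : x.Reachable v (ptr x v) :=
  (exists_pointer x).choose_spec.1 v

theorem ptr_closed (x : SimpleGraph (Fin n)) (S : Finset (Fin n)) (h : ∀ u ∈ S, ptr x u ∈ S) :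
    ∀ v ∈ S, ∀ w, x.Reachable v w → w ∈ S :=
  (exists_pointer x).choose_spec.2 S h

def badII {c D' : ℕ} (dec : (Fin c → Bool) → Fin n × Bool) (R : Lab → Lab → Prop)
    (y : SimpleGraph (Fin n)) (w : Fin n → Mark Lab) (m0 : Fin n)
    (v : Fin ((D' + 1) + (D' + 1)) → Fin n) (β : Fin ((D' + 1) + (D' + 1)) → Fin c → Bool) :
    Prop :=
  let s := v (Fin.castAdd (D' + 1) 0)
  let s' := v (Fin.natAdd (D' + 1) 0)
  let b1 : Fin (D' + 1) → Fin n := fun i => (dec (β (Fin.castAdd (D' + 1) i))).1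
  let b2 : Fin (D' + 1) → Fin n := fun i => (dec (β (Fin.natAdd (D' + 1) i))).1
  consistent y s (fun i => v (Fin.castAdd (D' + 1) i)) b1 ∧
  consistent y s' (fun i => v (Fin.natAdd (D' + 1) i)) b2 ∧
  ((∀ m ∈ disc y s b1, (w m).1 = none) ∨
   (∃ l, (w s).2.2 = some l ∧ (w (ctr w (disc y s b1) s)).1 ≠ some l) ∨
   (∃ l, (w s).2.1 = some l ∧ (w (ctr w (disc y s b1) s)).1 ≠ some l) ∨
   ((w s).2.1 ≠ none ∧ ctr w (disc y s b1) s = m0) ∨
   ((w s).2.1 ≠ none ∧ (dec (β (Fin.castAdd (D' + 1) 0))).2 = false ∧ ¬ hasEntry R y w s) ∨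
   ((w s).2.1 ≠ none ∧ (w s').2.1 ≠ none ∧ s ≠ s' ∧
      ctr w (disc y s b1) s = ctr w (disc y s' b2) s'))

theorem good_of_noBad {c D' : ℕ} (code : Fin n × Bool → (Fin c → Bool))
    (dec : (Fin c → Bool) → Fin n × Bool) (hdec : ∀ v, dec (code v) = v) (R : Lab → Lab → Prop)
    (x y : SimpleGraph (Fin n)) (w : Fin n → Mark Lab) (m0 : Fin n)
    (hcount : (univ.filter (fun s => (w s).2.1 ≠ none)).card + 1
      = (univ.filter (fun s => (w s).1 ≠ none)).card) (hroot : (w m0).1 ≠ none)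
    (h : ∀ v : Fin ((D' + 1) + (D' + 1)) → Fin n, ¬ badII dec R y w m0 v
      (fun k => code (ptr x (v k), decide (hasEntry R x w (v k))))) :
    Good R x y (fun s => exT (ptr x) y s (D' + 1)) w m0 := by
  have key : ∀ s s' : Fin n,
      ¬ ((∀ m ∈ exT (ptr x) y s (D' + 1), (w m).1 = none) ∨
   (∃ l, (w s).2.2 = some l ∧ (w (ctr w (exT (ptr x) y s (D' + 1)) s)).1 ≠ some l) ∨
   (∃ l, (w s).2.1 = some l ∧ (w (ctr w (exT (ptr x) y s (D' + 1)) s)).1 ≠ some l) ∨
   ((w s).2.1 ≠ none ∧ ctr w (exT (ptr x) y s (D' + 1)) s = m0) ∨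
   ((w s).2.1 ≠ none ∧ ¬ hasEntry R x w s ∧ ¬ hasEntry R y w s) ∨
   ((w s).2.1 ≠ none ∧ (w s').2.1 ≠ none ∧ s ≠ s' ∧
      ctr w (exT (ptr x) y s (D' + 1)) s = ctr w (exT (ptr x) y s' (D' + 1)) s')) := by
    intro s s'
    have h1 := h (Fin.append (exTuple (D' + 1) (ptr x) y s) (exTuple (D' + 1) (ptr x) y s'))
    unfold badII at h1
    simp only [Fin.append_left, Fin.append_right, hdec] at h1
    have z1 : exTuple (D' + 1) (ptr x) y s 0 = s := exTuple_zero _ _ _ (Nat.succ_pos _)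
    have z2 : exTuple (D' + 1) (ptr x) y s' 0 = s' := exTuple_zero _ _ _ (Nat.succ_pos _)
    rw [z1, z2] at h1
    have c1 := exTuple_consistent (D := D' + 1) (ptr x) y s
    have c2 := exTuple_consistent (D := D' + 1) (ptr x) y s'
    have d1 := disc_eq (ptr x) y s _ c1
    have d2 := disc_eq (ptr x) y s' _ c2
    rw [d1, d2] at h1
    intro hcon
    apply h1
    refine ⟨c1, c2, ?_⟩
    simpa [decide_eq_false_iff_not] using hcon
  refine ⟨?_, ?_, ?_, ?_, ?_, ?_, hcount, hroot⟩
  · intro s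
    have := key s s
    push Not at this
    exact this.1
  · intro s l hl
    by_contra hcon
    exact key s s (Or.inr (Or.inl ⟨l, hl, hcon⟩))
  · intro s l hl
    by_contra hcon
    exact key s s (Or.inr (Or.inr (Or.inl ⟨l, hl, hcon⟩)))
  · intro s hs hcon
    exact key s s (Or.inr (Or.inr (Or.inr (Or.inl ⟨hs, hcon⟩))))
  · intro s hs
    by_contra hcon
    push Not at hcon
    exact key s s (Or.inr (Or.inr (Or.inr (Or.inr (Or.inl ⟨hs, hcon.1, hcon.2⟩)))))
  · intro s s' hs hs' hne hcon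
    exact key s s' (Or.inr (Or.inr (Or.inr (Or.inr (Or.inr ⟨hs, hs', hne, hcon⟩)))))

theorem noBad_of_good {c D' : ℕ} (code : Fin n × Bool → (Fin c → Bool))
    (dec : (Fin c → Bool) → Fin n × Bool) (hdec : ∀ v, dec (code v) = v) (R : Lab → Lab → Prop)
    (x y : SimpleGraph (Fin n)) (w : Fin n → Mark Lab) (m0 : Fin n)
    (h : Good R x y (fun s => exT (ptr x) y s (D' + 1)) w m0) :
    ∀ v : Fin ((D' + 1) + (D' + 1)) → Fin n, ¬ badII dec R y w m0 v
      (fun k => code (ptr x (v k), decide (hasEntry R x w (v k)))) := by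
  intro v hbad
  unfold badII at hbad
  simp only [hdec] at hbad
  obtain ⟨c1, c2, hb⟩ := hbad
  have d1 := disc_eq (ptr x) y _ _ c1
  have d2 := disc_eq (ptr x) y _ _ c2
  rw [d1, d2] at hb
  rcases hb with hb | ⟨l, hl, hb⟩ | ⟨l, hl, hb⟩ | ⟨hl, hb⟩ | ⟨hl, hb1, hb2⟩ | ⟨h1, h2, h3, h4⟩
  · obtain ⟨m, hm, hm2⟩ := h.centre (v (Fin.castAdd (D' + 1) 0))
    exact hm2 (hb m hm)
  · exact hb (h.entry _ l hl)
  · exact hb (h.exit1 _ l hl)
  · exact h.exit2 _ hl hb
  · rcases h.exit3 _ hl with h5 | h5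
    · rw [decide_eq_false_iff_not] at hb1
      exact hb1 h5
    · exact hb2 h5
  · exact h.inj _ _ h1 h2 h3 h4

end

end Helper42_MA
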