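import Pool.Agent.Helper42_MA.Num

set_option autoImplicit false

namespace Helper42_MA

open Finset Classical

section
variable {n : ℕ}

/-- Closure of a set of vertices under reachability in `y`. -/
noncomputable def clB (y : SimpleGraph (Fin n)) (S : Finset (Fin n)) : Finset (Fin n) :=
  univ.filter (fun w => ∃ s ∈ S, y.Reachable s w)

theorem mem_clB (y : SimpleGraph (Fin n)) (S : Finset (Fin n)) (w : Fin n) :
    w ∈ clB y S ↔ ∃ s ∈ S, y.Reachable s w := by simp [clB]

theorem subset_clB (y : SimpleGraph (Fin n)) (S : Finset (Fin n)) : S ⊆ clB y S :=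
  fun s hs => (mem_clB y S s).mpr ⟨s, hs, SimpleGraph.Reachable.refl s⟩

theorem clB_mono (y : SimpleGraph (Fin n)) {S T : Finset (Fin n)} (h : S ⊆ T) :
    clB y S ⊆ clB y T := by
  intro w hw
  rw [mem_clB] at hw ⊢
  obtain ⟨s, hs, hsw⟩ := hw
  exact ⟨s, h hs, hsw⟩

/-- Next vertex to look up: `s` is the start, `U` the vertices already looked up, `F` the set of
answers received. -/
noncomputable def nx (y : SimpleGraph (Fin n)) (s : Fin n) (U F : Finset (Fin n)) : Fin n :=
  if s ∉ U then s else
    if h : (clB y (insert s F) \ U).Nonempty then (clB y (insert s F) \ U).min' h else s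

/-- The set of looked up vertices after `i` steps of the exploration from `s`. -/
noncomputable def exU (f : Fin n → Fin n) (y : SimpleGraph (Fin n)) (s : Fin n) : ℕ → Finset (Fin n)
  | 0 => ∅
  | i + 1 => insert (nx y s (exU f y s i) ((exU f y s i).image f)) (exU f y s i)

/-- The discovered set after `i` lookups. -/
noncomputable def exT (f : Fin n → Fin n) (y : SimpleGraph (Fin n)) (s : Fin n) (i : ℕ) :
    Finset (Fin n) := clB y (insert s ((exU f y s i).image f))

/-- Consistency of a tuple of lookups `v` with answers `b`. -/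
def consistent {D : ℕ} (y : SimpleGraph (Fin n)) (s : Fin n) (v b : Fin D → Fin n) : Prop :=
  ∀ i : Fin D, v i = nx y s ((univ.filter (fun j : Fin D => j < i)).image v)
    ((univ.filter (fun j : Fin D => j < i)).image b)

theorem image_lt_succ {D : ℕ} (v : Fin D → Fin n) (i : ℕ) (hi : i < D) :
    (univ.filter (fun j : Fin D => (j : ℕ) < i + 1)).image v
      = insert (v ⟨i, hi⟩) ((univ.filter (fun j : Fin D => (j : ℕ) < i)).image v) := by
  ext u
  simp only [Finset.mem_image, Finset.mem_filter, Finset.mem_univ, true_and, Finset.mem_insert]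
  constructor
  · rintro ⟨j, hj, rfl⟩
    rcases Nat.lt_succ_iff_lt_or_eq.mp hj with h | h
    · exact Or.inr ⟨j, h, rfl⟩
    · left; congr 1; exact Fin.ext h
  · rintro (rfl | ⟨j, hj, rfl⟩)
    · exact ⟨⟨i, hi⟩, by simp, rfl⟩
    · exact ⟨j, by omega, rfl⟩

theorem consistent_unique {D : ℕ} (f : Fin n → Fin n) (y : SimpleGraph (Fin n)) (s : Fin n)
    (v : Fin D → Fin n) (h : consistent y s v (fun i => f (v i))) :
    ∀ i : ℕ, i ≤ D → (univ.filter (fun j : Fin D => (j : ℕ) < i)).image v = exU f y s i := by
  intro i
  induction i with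
  | zero => intro _; simp [exU]
  | succ i ih =>
    intro hi
    have ih' := ih (by omega)
    rw [image_lt_succ v i (by omega), ih']
    have h1 := h ⟨i, by omega⟩
    have e1 : (univ.filter (fun j : Fin D => j < ⟨i, by omega⟩)).image v = exU f y s i := by
      rw [← ih']; rfl
    have e2 : (univ.filter (fun j : Fin D => j < ⟨i, by omega⟩)).image (fun i => f (v i))
        = (exU f y s i).image f := by
      rw [← ih', Finset.image_image]; rfl
    rw [e1, e2] at h1
    rw [h1]
    rfl

/-- The actual exploration as a tuple. -/
noncomputable def exTuple (D : ℕ) (f : Fin n → Fin n) (y : SimpleGraph (Fin n)) (s : Fin n) :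
    Fin D → Fin n := fun i => nx y s (exU f y s i) ((exU f y s i).image f)

theorem exTuple_image {D : ℕ} (f : Fin n → Fin n) (y : SimpleGraph (Fin n)) (s : Fin n) :
    ∀ i : ℕ, i ≤ D → (univ.filter (fun j : Fin D => (j : ℕ) < i)).image (exTuple D f y s)
      = exU f y s i := by
  intro i
  induction i with
  | zero => intro _; simp [exU]
  | succ i ih =>
    intro hi
    rw [image_lt_succ _ i (by omega), ih (by omega)]
    rfl

theorem exTuple_consistent {D : ℕ} (f : Fin n → Fin n) (y : SimpleGraph (Fin n)) (s : Fin n) :
    consistent y s (exTuple D f y s) (fun i => f (exTuple D f y s i)) := by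
  intro i
  have h := exTuple_image (D := D) f y s i i.2.le
  have e1 : (univ.filter (fun j : Fin D => j < i)).image (exTuple D f y s) = exU f y s i := h
  have e2 : (univ.filter (fun j : Fin D => j < i)).image (fun i => f (exTuple D f y s i))
      = (exU f y s i).image f := by
    rw [← e1, Finset.image_image]; rfl
  rw [e1, e2]
  rfl

theorem exTuple_zero {D : ℕ} (f : Fin n → Fin n) (y : SimpleGraph (Fin n)) (s : Fin n) (hD : 0 < D) :
    exTuple D f y s ⟨0, hD⟩ = s := by
  simp [exTuple, exU, nx]

theorem consistent_zero {D : ℕ} (y : SimpleGraph (Fin n)) (s : Fin n) (v b : Fin D → Fin n)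
    (hD : 0 < D) (h : consistent y s v b) : v ⟨0, hD⟩ = s := by
  rw [h ⟨0, hD⟩]
  have : (univ.filter (fun j : Fin D => j < (⟨0, hD⟩ : Fin D))) = ∅ := by
    apply Finset.filter_false_of_mem
    intro j _
    simp [Fin.lt_def]
  rw [this]
  simp [nx]

/-- The discovered set computed from the answers. -/
noncomputable def disc {D : ℕ} (y : SimpleGraph (Fin n)) (s : Fin n) (b : Fin D → Fin n) :
    Finset (Fin n) := clB y (insert s (univ.image b))

theorem disc_eq {D : ℕ} (f : Fin n → Fin n) (y : SimpleGraph (Fin n)) (s : Fin n)
    (v : Fin D → Fin n) (h : consistent y s v (fun i => f (v i))) :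
    disc y s (fun i => f (v i)) = exT f y s D := by
  have h1 := consistent_unique f y s v h D le_rfl
  have h2 : (univ.filter (fun j : Fin D => (j : ℕ) < D)) = univ := by
    apply Finset.filter_true_of_mem; intro j _; exact j.2
  rw [h2] at h1
  unfold disc exT
  rw [← h1, Finset.image_image]
  rfl

/-! ### properties of the exploration -/

theorem exU_mono (f : Fin n → Fin n) (y : SimpleGraph (Fin n)) (s : Fin n) (i : ℕ) :
    exU f y s i ⊆ exU f y s (i + 1) := by
  rw [exU]; exact Finset.subset_insert _ _

theorem exT_mono (f : Fin n → Fin n) (y : SimpleGraph (Fin n)) (s : Fin n) (i : ℕ) :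
    exT f y s i ⊆ exT f y s (i + 1) :=
  clB_mono y (Finset.insert_subset_insert _ (Finset.image_subset_image (exU_mono f y s i)))

theorem start_mem_exT (f : Fin n → Fin n) (y : SimpleGraph (Fin n)) (s : Fin n) (i : ℕ) :
    s ∈ exT f y s i := subset_clB y _ (Finset.mem_insert_self _ _)

theorem nx_mem (y : SimpleGraph (Fin n)) (s : Fin n) (U F : Finset (Fin n)) :
    nx y s U F ∈ clB y (insert s F) := by
  unfold nx
  by_cases h1 : s ∉ U
  · rw [if_pos h1]
    exact subset_clB y _ (Finset.mem_insert_self _ _)
  · rw [if_neg h1]
    by_cases h2 : (clB y (insert s F) \ U).Nonempty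
    · rw [dif_pos h2]
      exact (Finset.mem_sdiff.mp (Finset.min'_mem _ h2)).1
    · rw [dif_neg h2]
      exact subset_clB y _ (Finset.mem_insert_self _ _)

theorem exU_subset_exT (f : Fin n → Fin n) (y : SimpleGraph (Fin n)) (s : Fin n) (i : ℕ) :
    exU f y s i ⊆ exT f y s i := by
  induction i with
  | zero => simp [exU]
  | succ i ih =>
    intro u hu
    rw [exU, Finset.mem_insert] at hu
    apply exT_mono f y s i
    rcases hu with rfl | hu
    · exact nx_mem _ _ _ _
    · exact ih hu

theorem exT_reachable (x y : SimpleGraph (Fin n)) (f : Fin n → Fin n)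
    (hf : ∀ v, x.Reachable v (f v)) (s : Fin n) (i : ℕ) :
    ∀ w ∈ exT f y s i, (x ⊔ y).Reachable s w := by
  induction i with
  | zero =>
    intro w hw
    simp only [exT, exU, Finset.image_empty, mem_clB, Finset.mem_insert, Finset.notMem_empty,
      or_false, exists_eq_left] at hw
    exact hw.mono le_sup_right
  | succ i ih =>
    have hU : ∀ u ∈ exU f y s (i + 1), (x ⊔ y).Reachable s u := by
      intro u hu
      rw [exU, Finset.mem_insert] at hu
      rcases hu with rfl | hu
      · exact ih _ (nx_mem _ _ _ _)
      · exact ih _ (exU_subset_exT f y s i hu)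
    intro w hw
    rw [exT, mem_clB] at hw
    obtain ⟨t, ht, htw⟩ := hw
    rw [Finset.mem_insert] at ht
    rcases ht with rfl | ht
    · exact htw.mono le_sup_right
    · obtain ⟨u, hu, rfl⟩ := Finset.mem_image.mp ht
      exact ((hU u hu).trans ((hf u).mono le_sup_left)).trans (htw.mono le_sup_right)

/-- If the union graph is connected the exploration discovers many vertices. -/
theorem card_exT (x y : SimpleGraph (Fin n)) (f : Fin n → Fin n)
    (hf2 : ∀ S : Finset (Fin n), (∀ u ∈ S, f u ∈ S) → ∀ v ∈ S, ∀ w, x.Reachable v w → w ∈ S)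
    (hG : (x ⊔ y).Connected) (s : Fin n) (i : ℕ) :
    i ≤ (exT f y s i).card ∨ exT f y s i = univ := by
  suffices h : (exU f y s i).card = i ∨ exT f y s i = univ by
    rcases h with h | h
    · left
      conv_lhs => rw [← h]
      exact Finset.card_le_card (exU_subset_exT f y s i)
    · exact Or.inr h
  induction i with
  | zero => left; simp [exU]
  | succ i ih =>
    rcases ih with ih | ih
    · by_cases hmem : nx y s (exU f y s i) ((exU f y s i).image f) ∈ exU f y s i
      · right
        -- the set is closed
        have hs : s ∈ exU f y s i := by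
          by_contra hs
          have : nx y s (exU f y s i) ((exU f y s i).image f) = s := by
            unfold nx; rw [if_pos hs]
          rw [this] at hmem
          exact hs hmem
        have hemp : ¬ (clB y (insert s ((exU f y s i).image f)) \ exU f y s i).Nonempty := by
          intro hne
          have : nx y s (exU f y s i) ((exU f y s i).image f)
              = (clB y (insert s ((exU f y s i).image f)) \ exU f y s i).min' hne := by
            unfold nx; rw [if_neg (by simpa using hs), dif_pos hne]
          rw [this] at hmem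
          exact (Finset.mem_sdiff.mp (Finset.min'_mem _ hne)).2 hmem
        have hTU : exT f y s i ⊆ exU f y s i := by
          intro w hw
          by_contra hcon
          exact hemp ⟨w, Finset.mem_sdiff.mpr ⟨hw, hcon⟩⟩
        have hclosedf : ∀ u ∈ exT f y s i, f u ∈ exT f y s i := by
          intro u hu
          exact subset_clB y _ (Finset.mem_insert_of_mem
            (Finset.mem_image_of_mem f (hTU hu)))
        have hclosedy : ∀ u ∈ exT f y s i, ∀ w, y.Reachable u w → w ∈ exT f y s i := by
          intro u hu w hw
          rw [exT, mem_clB] at hu ⊢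
          obtain ⟨t, ht, htu⟩ := hu
          exact ⟨t, ht, htu.trans hw⟩
        have hclosedG : ∀ u w, (x ⊔ y).Walk u w → u ∈ exT f y s i → w ∈ exT f y s i := by
          intro u w p
          induction p with
          | nil => exact id
          | cons hadj _ ihp =>
            intro hu
            apply ihp
            rw [SimpleGraph.sup_adj] at hadj
            rcases hadj with ha | ha
            · exact hf2 _ hclosedf _ hu _ ha.reachable
            · exact hclosedy _ hu _ ha.reachable
        have huniv : exT f y s i = univ := by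
          apply Finset.eq_univ_of_forall
          intro w
          obtain ⟨p⟩ := hG.preconnected s w
          exact hclosedG s w p (start_mem_exT f y s i)
        apply Finset.eq_univ_of_forall
        intro w
        exact exT_mono f y s i (by rw [huniv]; exact Finset.mem_univ w)
      · left
        rw [exU, Finset.card_insert_of_notMem hmem, ih]
    · right
      apply Finset.eq_univ_of_forall
      intro w
      exact exT_mono f y s i (by rw [ih]; exact Finset.mem_univ w)

/-- Alice's pointer structure: a function walking cyclically through each component. -/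
theorem exists_pointer (x : SimpleGraph (Fin n)) : ∃ f : Fin n → Fin n,
    (∀ v, x.Reachable v (f v)) ∧
    (∀ S : Finset (Fin n), (∀ u ∈ S, f u ∈ S) → ∀ v ∈ S, ∀ w, x.Reachable v w → w ∈ S) := by
  have hcyc : ∀ C : x.ConnectedComponent, ∃ g : Equiv.Perm (Fin n),
      g.IsCycleOn {v | x.connectedComponentMk v = C} := by
    intro C
    obtain ⟨g, hg, _⟩ := (univ.filter (fun v => x.connectedComponentMk v = C)).exists_cycleOn
    refine ⟨g, ?_⟩
    simpa using hg
  choose g hg using hcyc
  refine ⟨fun v => g (x.connectedComponentMk v) v, ?_, ?_⟩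
  · intro v
    have h := (hg (x.connectedComponentMk v)).1.mapsTo (show v ∈ {w | x.connectedComponentMk w
      = x.connectedComponentMk v} from rfl)
    exact (SimpleGraph.ConnectedComponent.eq.mp h).symm
  · intro S hS v hv w hvw
    have hcw : x.connectedComponentMk w = x.connectedComponentMk v :=
      (SimpleGraph.ConnectedComponent.eq.mpr hvw).symm
    set C := x.connectedComponentMk v with hC
    have hfin : ({u | x.connectedComponentMk u = C} : Set (Fin n)).Finite := Set.toFinite _
    have hsame := (hg C).2 (show v ∈ {u | x.connectedComponentMk u = C} from rfl)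
      (show w ∈ {u | x.connectedComponentMk u = C} from hcw)
    obtain ⟨k, hk⟩ := hsame.exists_nat_pow_eq
    have hmaps : ∀ m : ℕ, ((g C) ^ m) v ∈ S ∧ x.connectedComponentMk (((g C) ^ m) v) = C := by
      intro m
      induction m with
      | zero => exact ⟨by simpa using hv, rfl⟩
      | succ m ih =>
        rw [pow_succ', Equiv.Perm.mul_apply]
        refine ⟨?_, ?_⟩
        · have := hS _ ih.1
          simp only [ih.2] at this
          exact this
        · exact (hg C).1.mapsTo (show ((g C) ^ m) v ∈ {u | x.connectedComponentMk u = C} from ih.2)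
    rw [← hk]
    exact (hmaps k).1

end

/-! ### hitting sets -/

/-- Greedy hitting set: `n` sets of size at least `k` in a universe of size `n` are hit by at most
`n (1 + log k) / k + 1` points. -/
theorem exists_hitting {n : ℕ} (T : Fin n → Finset (Fin n)) (k : ℕ) (hk : 1 ≤ k)
    (hT : ∀ s, k ≤ (T s).card) (hn : 0 < n) :
    ∃ M : Finset (Fin n), (∀ s, (T s ∩ M).Nonempty) ∧
      (M.card : ℝ) ≤ n * (1 + Real.log k) / k + 1 := by
  have hn' : (0:ℝ) < n := by exact_mod_cast hn
  have hk' : (1:ℝ) ≤ k := by exact_mod_cast hk
  have hkn : (k:ℝ) ≤ n := by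
    have h1 := hT ⟨0, hn⟩
    have h2 := Finset.card_le_univ (T ⟨0, hn⟩)
    rw [Fintype.card_fin] at h2
    exact_mod_cast h1.trans h2
  have hq0 : 0 ≤ 1 - (k:ℝ) / n := by
    rw [sub_nonneg, div_le_one hn']; exact hkn
  -- greedy phase
  have greedy : ∀ j : ℕ, ∃ M : Finset (Fin n), M.card ≤ j ∧
      ((univ.filter (fun s => ¬ (T s ∩ M).Nonempty)).card : ℝ) ≤ n * (1 - k / n) ^ j := by
    intro j
    induction j with
    | zero =>
      refine ⟨∅, by simp, ?_⟩
      simp
    | succ j ih =>
      obtain ⟨M, hM1, hM2⟩ := ih
      set B := univ.filter (fun s => ¬ (T s ∩ M).Nonempty) with hB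
      -- double counting
      have hdc : ∑ u : Fin n, (B.filter (fun s => u ∈ T s)).card = ∑ s ∈ B, (T s).card := by
        simp only [Finset.card_filter]
        rw [Finset.sum_comm]
        refine Finset.sum_congr rfl fun s _ => ?_
        rw [← Finset.sum_filter]
        simp
      have hge : B.card * k ≤ ∑ u : Fin n, (B.filter (fun s => u ∈ T s)).card := by
        rw [hdc, ← smul_eq_mul]
        exact Finset.card_nsmul_le_sum _ _ _ (fun s _ => hT s)
      obtain ⟨u, hu⟩ : ∃ u : Fin n, (B.card * k : ℝ) ≤ n * (B.filter (fun s => u ∈ T s)).card := by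
        by_contra hcon
        push Not at hcon
        have h1 : ∑ u : Fin n, (n:ℝ) * ((B.filter (fun s => u ∈ T s)).card : ℝ)
            < ∑ u : Fin n, (B.card * k : ℝ) := by
          apply Finset.sum_lt_sum_of_nonempty
          · exact ⟨⟨0, hn⟩, Finset.mem_univ _⟩
          · intro u _; exact hcon u
        rw [← Finset.mul_sum, Finset.sum_const, Finset.card_univ, Fintype.card_fin,
          nsmul_eq_mul] at h1
        have h2 := lt_of_mul_lt_mul_left h1 hn'.le
        have h3 : (B.card * k : ℝ) ≤ ∑ u : Fin n, ((B.filter (fun s => u ∈ T s)).card : ℝ) := by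
          exact_mod_cast hge
        linarith
      refine ⟨insert u M, (Finset.card_insert_le _ _).trans (by omega), ?_⟩
      have hsub : (univ.filter (fun s => ¬ (T s ∩ insert u M).Nonempty))
          ⊆ B \ B.filter (fun s => u ∈ T s) := by
        intro s hs
        simp only [Finset.mem_filter, Finset.mem_univ, true_and, Finset.mem_sdiff, hB,
          Finset.not_nonempty_iff_eq_empty] at hs ⊢
        have h1 : T s ∩ M = ∅ := by
          apply Finset.eq_empty_of_forall_notMem
          intro w hw
          have : w ∈ T s ∩ insert u M := by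
            rw [Finset.mem_inter] at hw ⊢
            exact ⟨hw.1, Finset.mem_insert_of_mem hw.2⟩
          rw [hs] at this
          exact absurd this (Finset.notMem_empty w)
        refine ⟨h1, ?_⟩
        rintro ⟨_, hu2⟩
        have : u ∈ T s ∩ insert u M := Finset.mem_inter.mpr ⟨hu2, Finset.mem_insert_self _ _⟩
        rw [hs] at this
        exact absurd this (Finset.notMem_empty u)
      have hcard := Finset.card_le_card hsub
      rw [Finset.card_sdiff_of_subset (Finset.filter_subset _ _)] at hcard
      have hle : (B.filter (fun s => u ∈ T s)).card ≤ B.card := Finset.card_filter_le _ _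
      have hcard' : ((univ.filter (fun s => ¬ (T s ∩ insert u M).Nonempty)).card : ℝ)
          ≤ B.card - (B.filter (fun s => u ∈ T s)).card := by
        have : ((B.card - (B.filter (fun s => u ∈ T s)).card : ℕ) : ℝ)
            = (B.card : ℝ) - (B.filter (fun s => u ∈ T s)).card := Nat.cast_sub hle
        rw [← this]
        exact_mod_cast hcard
      have hu' : (B.card * k : ℝ) / n ≤ (B.filter (fun s => u ∈ T s)).card := by
        rw [div_le_iff₀ hn']; linarith
      calc ((univ.filter (fun s => ¬ (T s ∩ insert u M).Nonempty)).card : ℝ)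
          ≤ B.card - (B.filter (fun s => u ∈ T s)).card := hcard'
        _ ≤ B.card - (B.card * k : ℝ) / n := by linarith
        _ = B.card * (1 - k / n) := by ring
        _ ≤ (n * (1 - k / n) ^ j) * (1 - k / n) := by gcongr
        _ = n * (1 - k / n) ^ (j + 1) := by ring
  -- number of greedy steps
  set j := ⌈(n:ℝ) * Real.log k / k⌉₊ with hj
  obtain ⟨M, hM1, hM2⟩ := greedy j
  have hlogk : 0 ≤ Real.log k := Real.log_nonneg hk'
  have hj1 : (n:ℝ) * Real.log k / k ≤ j := Nat.le_ceil _
  have hj2 : (j:ℝ) < (n:ℝ) * Real.log k / k + 1 := Nat.ceil_lt_add_one (by positivity)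
  have hres : (n:ℝ) * (1 - k / n) ^ j ≤ n / k := by
    have h1 : 1 - (k:ℝ) / n ≤ Real.exp (-(k / n)) := by
      have := Real.add_one_le_exp (-((k:ℝ) / n))
      linarith
    have h2 : (1 - (k:ℝ) / n) ^ j ≤ Real.exp (-(Real.log k)) := by
      calc (1 - (k:ℝ) / n) ^ j ≤ (Real.exp (-(k / n))) ^ j := pow_le_pow_left₀ hq0 h1 j
        _ = Real.exp (-(j * (k / n))) := by
            rw [← Real.exp_nat_mul]; congr 1; ring
        _ ≤ Real.exp (-(Real.log k)) := by
            apply Real.exp_le_exp.mpr
            apply neg_le_neg
            have : Real.log k = (n * Real.log k / k) * (k / n) := by field_simp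
            rw [this]
            gcongr
    rw [Real.exp_neg, Real.exp_log (by linarith)] at h2
    calc (n:ℝ) * (1 - k / n) ^ j ≤ n * (k:ℝ)⁻¹ := by gcongr
      _ = n / k := by rw [div_eq_mul_inv]
  -- fix the remaining sets
  have hch : ∀ s : Fin n, ∃ u, u ∈ T s := fun s =>
    Finset.card_pos.mp (lt_of_lt_of_le (by omega) (hT s))
  choose c hc using hch
  refine ⟨M ∪ (univ.filter (fun s => ¬ (T s ∩ M).Nonempty)).image c, ?_, ?_⟩
  · intro s
    by_cases h : (T s ∩ M).Nonempty
    · obtain ⟨w, hw⟩ := h
      rw [Finset.mem_inter] at hw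
      exact ⟨w, Finset.mem_inter.mpr ⟨hw.1, Finset.mem_union_left _ hw.2⟩⟩
    · exact ⟨c s, Finset.mem_inter.mpr ⟨hc s, Finset.mem_union_right _
        (Finset.mem_image_of_mem c (by simpa using h))⟩⟩
  · have h1 : ((M ∪ (univ.filter (fun s => ¬ (T s ∩ M).Nonempty)).image c).card : ℝ)
        ≤ M.card + (univ.filter (fun s => ¬ (T s ∩ M).Nonempty)).card := by
      have := (Finset.card_union_le M ((univ.filter (fun s => ¬ (T s ∩ M).Nonempty)).image c))
      have h2 := Finset.card_image_le (s := univ.filter (fun s => ¬ (T s ∩ M).Nonempty)) (f := c)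
      exact_mod_cast this.trans (by omega)
    have h3 : (M.card : ℝ) ≤ j := by exact_mod_cast hM1
    have h4 : (n:ℝ) * (1 + Real.log k) / k = n / k + n * Real.log k / k := by ring
    rw [h4]
    linarith

end Helper42_MA
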