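import Pool.Agent.Helper42_MA.TypeI

set_option autoImplicit false

namespace Helper42_MA

open Finset Classical Filter

theorem tendsto_logn : Tendsto (fun n : ℕ => Real.log n) atTop atTop :=
  Real.tendsto_log_atTop.comp tendsto_natCast_atTop_atTop

theorem tendsto_loglogn : Tendsto (fun n : ℕ => Real.log (Real.log n)) atTop atTop :=
  Real.tendsto_log_atTop.comp tendsto_logn

theorem ev_loglog_le (C : ℝ) (hC : 0 < C) :
    ∀ᶠ n : ℕ in atTop, C * Real.log (Real.log n) ≤ Real.log n := by
  have h1 := (Real.isLittleO_log_id_atTop.comp_tendsto tendsto_logn).def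
    (c := 1 / C) (by positivity)
  filter_upwards [h1, tendsto_loglogn.eventually_ge_atTop 1, tendsto_logn.eventually_ge_atTop 1]
    with n h h2 h3
  simp only [Function.comp, id, Real.norm_eq_abs] at h
  rw [abs_of_nonneg (by linarith), abs_of_nonneg (by linarith)] at h
  rw [div_mul_eq_mul_div, one_mul, le_div_iff₀ hC] at h
  linarith

theorem ev_log_pow_le (k : ℕ) (C : ℝ) (hC : 0 < C) :
    ∀ᶠ n : ℕ in atTop, C * Real.log n ^ k ≤ n := by
  have h := (Real.isLittleO_pow_log_id_atTop (n := k)).comp_tendsto (tendsto_natCast_atTop_atTop (R := ℝ))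
  have h1 := h.def (c := 1 / C) (by positivity)
  filter_upwards [h1, tendsto_logn.eventually_ge_atTop 1] with n h h3
  simp only [Function.comp, id, Real.norm_eq_abs] at h
  rw [abs_of_nonneg (by positivity), abs_of_nonneg (by positivity)] at h
  rw [div_mul_eq_mul_div, one_mul, le_div_iff₀ hC] at h
  linarith

/-- Basic comparison facts between `clog` and `log`. -/
theorem ev_facts : ∀ᶠ n : ℕ in atTop,
    (3 ≤ n) ∧ ((Nat.clog 2 n : ℝ) ≤ 3 * Real.log n) ∧ (Real.log n ≤ Nat.clog 2 n) ∧
    ((Nat.clog 2 (Nat.clog 2 n) : ℝ) ≤ 5 * Real.log (Real.log n)) ∧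
    (1 ≤ Real.log (Real.log n)) ∧ (1 ≤ Real.log n) ∧
    (400 * Nat.clog 2 (Nat.clog 2 n) ≤ Nat.clog 2 n) ∧
    (1 ≤ Nat.clog 2 (Nat.clog 2 n)) ∧
    (Real.log n * Real.log n ≤ n) := by
  filter_upwards [eventually_ge_atTop 3, tendsto_logn.eventually_ge_atTop 1,
    tendsto_loglogn.eventually_ge_atTop 3, ev_loglog_le 2000 (by norm_num),
    ev_log_pow_le 2 1 one_pos] with n h3 hL hLL h2000 hsq
  have hn1 : 1 < n := by omega
  have e1 : (Nat.clog 2 n : ℝ) ≤ 3 * Real.log n := by
    have := clog_le_log n (by omega)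
    linarith
  have hlpos : 0 < Nat.clog 2 n := Nat.clog_pos (by norm_num) hn1
  have e2 : Real.log n ≤ Nat.clog 2 n := by
    have h1 : (n:ℝ) ≤ 2 ^ Nat.clog 2 n := by exact_mod_cast Nat.le_pow_clog (by norm_num) n
    have h2 := Real.log_le_log (by positivity) h1
    rw [Real.log_pow] at h2
    have h4 := Real.log_two_lt_d9
    have h5 : (0:ℝ) ≤ Nat.clog 2 n := by positivity
    nlinarith
  have e3 : (Nat.clog 2 (Nat.clog 2 n) : ℝ) ≤ 5 * Real.log (Real.log n) := by
    have h1 := clog_le_log (Nat.clog 2 n) hlpos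
    have h2 : Real.log (Nat.clog 2 n) ≤ Real.log 3 + Real.log (Real.log n) := by
      rw [← Real.log_mul (by norm_num) (by linarith)]
      exact Real.log_le_log (by exact_mod_cast hlpos) e1
    have h5 : Real.log 3 ≤ 2 := by
      have := Real.log_le_sub_one_of_pos (show (0:ℝ) < 3 by norm_num)
      linarith
    linarith
  have e4 : 400 * Nat.clog 2 (Nat.clog 2 n) ≤ Nat.clog 2 n := by
    have : ((400 * Nat.clog 2 (Nat.clog 2 n) : ℕ) : ℝ) ≤ (Nat.clog 2 n : ℕ) := by
      push_cast
      linarith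
    exact_mod_cast this
  have e5 : 1 ≤ Nat.clog 2 (Nat.clog 2 n) := by
    apply Nat.clog_pos (by norm_num)
    have : Nat.clog 2 3 ≤ Nat.clog 2 n := Nat.clog_mono_right 2 h3
    have h32 : 1 < Nat.clog 2 3 := by
      rw [Nat.lt_clog_iff_pow_lt (by norm_num)]; norm_num
    omega
  refine ⟨h3, e1, e2, e3, by linarith, hL, e4, e5, by nlinarith⟩

def YesI (n N : ℕ) (x y : SimpleGraph (Fin n)) : Prop :=
  (x ⊔ y).Connected ∧
    (Fintype.card x.ConnectedComponent ≤ N ∨ Fintype.card y.ConnectedComponent ≤ N)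

theorem typeI_cost : ∃ N0 : ℕ, ∀ n : ℕ, N0 ≤ n → ∀ N : ℕ, 1 ≤ N → N ≤ n →
    HasMA n (3000 * (N * (Real.log (n / N) + Real.log (Real.log n)) + n / Real.log n))
      (YesI n N) (fun x y => ¬ (x ⊔ y).Connected) := by
  obtain ⟨N1, hN1⟩ := engine_final
  obtain ⟨N2, hN2⟩ := eventually_atTop.mp ev_facts
  refine ⟨N1 + N2, fun n hn N hN hNn => ?_⟩
  obtain ⟨h3, e1, e2, e3, hLL, hL, e4, e5, hsq⟩ := hN2 n (by omega)
  set l := Nat.clog 2 n with hl
  set lam := Nat.clog 2 l with hlam
  set d0 := l / (40 * lam) - 1 with hd0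
  have hq : 10 ≤ l / (40 * lam) := by
    rw [Nat.le_div_iff_mul_le (by omega)]; omega
  have hd0pos : 0 < d0 := by omega
  obtain ⟨code, dec, hdec⟩ := exists_code (n := n) (l := l) (Nat.le_pow_clog (by norm_num) n) (by omega)
  have hd : 40 * (lam * (d0 + 1)) ≤ l := by
    have h1 : d0 + 1 = l / (40 * lam) := by omega
    rw [h1]
    have := Nat.div_mul_le_self l (40 * lam)
    calc 40 * (lam * (l / (40 * lam))) = l / (40 * lam) * (40 * lam) := by ring
      _ ≤ l := this
  set K := N / d0 with hK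
  have hWne : Nonempty (WI n N K) := by
    have : Nonempty (Fin n) := ⟨⟨0, by omega⟩⟩
    infer_instance
  have main := hN1 n (by omega) l (d0 + 1) (by omega) hd (WI n N K)
    (fun _ _ => True) (fun _ _ => True)
    (fun w x u => code (rep x w.2.1.1 u))
    (fun w y v β => badI dec w y v β) (YesI n N) (fun x y => ¬ (x ⊔ y).Connected)
    (by
      rintro x y ⟨hG, hc⟩
      obtain ⟨w, hw⟩ := completeI code dec hdec x y hG hc hd0pos (K := K) le_rfl
      exact ⟨w, trivial, trivial, hw⟩)
    (by
      intro x y hno w _ _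
      by_contra hcon
      push Not at hcon
      exact hno (soundI code dec hdec w x y hcon))
  refine main.mono ?_ (fun _ _ h => h) (fun _ _ h => h)
  -- cost estimate
  have hn0 : (0:ℝ) < n := by
    have : 0 < n := by omega
    exact_mod_cast this
  have hN0 : (0:ℝ) < N := by exact_mod_cast hN
  have hNn' : (N:ℝ) ≤ n := by exact_mod_cast hNn
  have hl0 : (0:ℝ) < l := by linarith
  have hcardW : (Fintype.card (WI n N K) : ℝ) = n * (Fintype.card (Sparse n Bool false N) *
      (Fintype.card (Sparse n Bool false N) *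
        Fintype.card (Sparse n (Option (Fin (n + 1))) none K))) := by
    simp only [WI, Fintype.card_prod, Fintype.card_fin]
    push_cast
    ring
  have c1 : (0:ℝ) < Fintype.card (Sparse n Bool false N) := by exact_mod_cast Fintype.card_pos
  have c2 : (0:ℝ) < Fintype.card (Sparse n (Option (Fin (n + 1))) none K) := by
    exact_mod_cast Fintype.card_pos
  have hlogW : Real.log (Fintype.card (WI n N K)) = Real.log n +
      (Real.log (Fintype.card (Sparse n Bool false N)) +
      (Real.log (Fintype.card (Sparse n Bool false N)) +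
        Real.log (Fintype.card (Sparse n (Option (Fin (n + 1))) none K)))) := by
    rw [hcardW, Real.log_mul hn0.ne' (by positivity), Real.log_mul c1.ne' (by positivity),
      Real.log_mul c1.ne' c2.ne']
  have s1 : Real.log (Fintype.card (Sparse n Bool false N)) ≤ N * Real.log (n / N) + 2 * N := by
    have h := log_card_sparse_le n Bool false N (n / N) (by rw [le_div_iff₀ hN0]; linarith)
    have e : (n:ℝ) * (Fintype.card Bool : ℕ) / (n / N) = 2 * N := by
      rw [Fintype.card_bool]; push_cast; field_simp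
    rw [e] at h
    exact h
  have s2 : Real.log (Fintype.card (Sparse n (Option (Fin (n + 1))) none K))
      ≤ K * (3 * Real.log n) + n / l := by
    have hz : (1:ℝ) ≤ (n + 2) * l := by nlinarith
    have h := log_card_sparse_le n (Option (Fin (n + 1))) none K ((n + 2) * l) hz
    have e : (n:ℝ) * (Fintype.card (Option (Fin (n + 1))) : ℕ) / ((n + 2) * l) = n / l := by
      have : (Fintype.card (Option (Fin (n + 1))) : ℕ) = n + 2 := by simp
      rw [this]; push_cast
      have : (n:ℝ) + 2 ≠ 0 := by positivity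
      field_simp
    rw [e] at h
    have h2 : Real.log ((n + 2) * l) ≤ 3 * Real.log n := by
      have h5 : ((n:ℝ) + 2) * l ≤ n ^ 3 := by
        have h6 : (l:ℝ) ≤ n := by
          have : l ≤ n := Nat.clog_le_of_le_pow (Nat.lt_two_pow_self).le
          exact_mod_cast this
        have h7 : (n:ℝ) + 2 ≤ n ^ 2 := by
          have : (3:ℝ) ≤ n := by exact_mod_cast h3
          nlinarith
        calc ((n:ℝ) + 2) * l ≤ n ^ 2 * n := by gcongr
          _ = n ^ 3 := by ring
      calc Real.log ((n + 2) * l) ≤ Real.log (n ^ 3) := Real.log_le_log (by positivity) h5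
        _ = 3 * Real.log n := by rw [Real.log_pow]; norm_num
    have h8 : (K:ℝ) * Real.log ((n + 2) * l) ≤ K * (3 * Real.log n) := by gcongr
    linarith
  -- K bound
  have hKb : (K:ℝ) * Real.log n ≤ 80 * (N * lam) := by
    have k1 : K * d0 ≤ N := Nat.div_mul_le_self N d0
    have k2 : l ≤ 80 * lam * d0 := by
      have h5 : l < (l / (40 * lam) + 1) * (40 * lam) := by
        have := Nat.div_add_mod l (40 * lam)
        have h6 := Nat.mod_lt l (show 0 < 40 * lam by omega)
        nlinarith
      have h7 : l / (40 * lam) + 1 ≤ 2 * d0 := by omega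
      calc l ≤ (l / (40 * lam) + 1) * (40 * lam) := h5.le
        _ ≤ 2 * d0 * (40 * lam) := Nat.mul_le_mul_right _ h7
        _ = 80 * lam * d0 := by ring
    have k3 : (K:ℝ) * d0 ≤ N := by exact_mod_cast k1
    have k4 : (l:ℝ) ≤ 80 * lam * d0 := by exact_mod_cast k2
    have hK0 : (0:ℝ) ≤ K := by positivity
    have hlam0 : (0:ℝ) ≤ lam := by positivity
    calc (K:ℝ) * Real.log n ≤ K * l := by gcongr
      _ ≤ K * (80 * lam * d0) := by gcongr
      _ = 80 * lam * (K * d0) := by ring
      _ ≤ 80 * lam * N := by gcongr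
      _ = 80 * (N * lam) := by ring
  have hnl : (n:ℝ) / l ≤ n / Real.log n := by
    gcongr
  have hlogn : Real.log n ≤ n / Real.log n := by
    rw [le_div_iff₀ (by linarith)]; exact hsq
  have h1n : (1:ℝ) ≤ n / Real.log n := hL.trans hlogn
  have hNlam : (N:ℝ) * lam ≤ 5 * (N * Real.log (Real.log n)) := by
    calc (N:ℝ) * lam ≤ N * (5 * Real.log (Real.log n)) := by gcongr
      _ = _ := by ring
  have hNLL : (N:ℝ) ≤ N * Real.log (Real.log n) := by nlinarith
  have hlog0 : 0 ≤ Real.log ((n:ℝ) / N) := Real.log_nonneg (by rw [le_div_iff₀ hN0]; linarith)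
  have hNl0 : 0 ≤ N * Real.log ((n:ℝ) / N) := by positivity
  rw [hlogW]
  rw [mul_add (N:ℝ)]
  nlinarith

end Helper42_MA
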