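import Pool.Agent.Helper42_MA.Engine

set_option autoImplicit false

namespace Helper42_MA

open Finset Classical Filter

theorem eventually_poly_le_two_pow (C k : ℕ) : ∀ᶠ m : ℕ in atTop, C * m ^ k ≤ 2 ^ m := by
  have h := tendsto_pow_const_div_const_pow_of_one_lt k (r := (2:ℝ)) (by norm_num)
  have h2 : ∀ᶠ m : ℕ in atTop, (m:ℝ) ^ k / 2 ^ m < 1 / (C + 1) :=
    h.eventually_lt_const (by positivity)
  filter_upwards [h2] with m hm
  rw [div_lt_div_iff₀ (by positivity) (by positivity)] at hm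
  have h3 : ((C * m ^ k : ℕ) : ℝ) ≤ ((2 ^ m : ℕ) : ℝ) := by
    push_cast
    have : (0:ℝ) ≤ (m:ℝ) ^ k := by positivity
    nlinarith
  exact_mod_cast h3

/-- `C ℓ^k 2^(ℓ/5) ≤ 2^(ℓ-1)` for large `ℓ`. -/
theorem eventually_poly_mul_le (C k : ℕ) :
    ∀ᶠ l : ℕ in atTop, C * l ^ k * 2 ^ (l / 5) ≤ 2 ^ (l - 1) := by
  have h := eventually_poly_le_two_pow (C * 4 ^ k) k
  rw [eventually_atTop] at h ⊢
  obtain ⟨m0, hm0⟩ := h
  refine ⟨4 * m0 + 20, fun l hl => ?_⟩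
  have h1 := hm0 (l / 4 + 1 + 1) (by omega)
  have h2 : l ≤ 4 * (l / 4 + 1 + 1) := by omega
  calc C * l ^ k * 2 ^ (l / 5) ≤ C * (4 * (l / 4 + 1 + 1)) ^ k * 2 ^ (l / 5) := by gcongr
    _ = C * 4 ^ k * (l / 4 + 1 + 1) ^ k * 2 ^ (l / 5) := by rw [mul_pow]; ring
    _ ≤ 2 ^ (l / 4 + 1 + 1) * 2 ^ (l / 5) := Nat.mul_le_mul_right _ h1
    _ = 2 ^ (l / 4 + 1 + 1 + l / 5) := (pow_add _ _ _).symm
    _ ≤ 2 ^ (l - 1) := Nat.pow_le_pow_right (by norm_num) (by omega)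

/-- **Engine with parameters.** -/
theorem engine_param : ∃ N0 : ℕ, ∀ n : ℕ, N0 ≤ n → ∀ (c d p0 : ℕ),
    c ≤ 8 * Nat.clog 2 n → 40 * (Nat.clog 2 (Nat.clog 2 n) * d) ≤ Nat.clog 2 n →
    ∀ (W : Type) [Fintype W] [Nonempty W]
    (cA cB : W → SimpleGraph (Fin n) → Prop)
    (α : W → SimpleGraph (Fin n) → Fin n → Fin c → Bool)
    (Ψ : W → SimpleGraph (Fin n) → (Fin d → Fin n) → (Fin d → Fin c → Bool) → Prop)
    (YES NO : SimpleGraph (Fin n) → SimpleGraph (Fin n) → Prop)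
    (_ : ∀ x y, YES x y → ∃ w, cA w x ∧ cB w y ∧ ∀ v, ¬ Ψ w y v (fun k => α w x (v k)))
    (_ : ∀ x y, NO x y → ∀ w, cA w x → cB w y → ∃ v, Ψ w y v (fun k => α w x (v k)))
    (_ : Fintype.card W ≤ 2 ^ p0),
    HasMA n (p0 + n / Nat.clog 2 n) YES NO := by
  have E1 := eventually_poly_mul_le 8 3
  have E2 := eventually_poly_mul_le 64 5
  rw [eventually_atTop] at E1 E2
  obtain ⟨l1, hl1⟩ := E1
  obtain ⟨l2, hl2⟩ := E2
  refine ⟨2 ^ (l1 + l2 + 100) + 1, fun n hn c d p0 hc hd W _ _ cA cB α Ψ YES NO hyes hno hW => ?_⟩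
  set l := Nat.clog 2 n with hl
  set lam := Nat.clog 2 l with hlam
  have hn1 : 1 < n := by
    have : 1 ≤ 2 ^ (l1 + l2 + 100) := Nat.one_le_two_pow
    omega
  have hll : l1 + l2 + 100 < l := (Nat.lt_clog_iff_pow_lt (by norm_num)).mpr (by omega)
  have hnl : n ≤ 2 ^ l := Nat.le_pow_clog (by norm_num) n
  have hln : 2 ^ (l - 1) < n := Nat.pow_pred_clog_lt_self (by norm_num) hn1
  have hlam2 : l ≤ 2 ^ lam := Nat.le_pow_clog (by norm_num) l
  have hlam1 : 1 ≤ lam := Nat.clog_pos (by norm_num) (by omega)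
  have hlaml : lam ≤ l := Nat.clog_le_of_le_pow (Nat.lt_two_pow_self).le
  have E1 := hl1 l (by omega)
  have E2 := hl2 l (by omega)
  -- parameters
  have hdl : 40 * d ≤ l := by
    calc 40 * d ≤ 40 * (lam * d) := by nlinarith
      _ ≤ l := hd
  obtain ⟨q, hqp, hq1, hq2⟩ := Nat.exists_prime_lt_and_le_two_mul (2 ^ (l * d + 16 * lam))
    (by positivity)
  have : Fact q.Prime := ⟨hqp⟩
  set t := l ^ 6 with ht
  set s := n / t + 1 with hs
  have hl0 : 0 < l := by omega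
  have htpos : 0 < t := by rw [ht]; exact pow_pos hl0 6
  have hspos : 0 < s := Nat.succ_pos _
  have hts : n ≤ t * s := by
    rw [hs, mul_add, mul_one]
    have := Nat.div_add_mod n t
    have := Nat.mod_lt n htpos
    omega
  have hpowlam : ∀ k : ℕ, l ^ k ≤ 2 ^ (k * lam) := by
    intro k
    calc l ^ k ≤ (2 ^ lam) ^ k := Nat.pow_le_pow_left hlam2 k
      _ = 2 ^ (k * lam) := by rw [← pow_mul, mul_comm]
  have hD : t * (c + 1) ≤ l ^ 8 := by
    calc t * (c + 1) ≤ l ^ 6 * (l * l) := by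
          rw [ht]; apply Nat.mul_le_mul_left; nlinarith
      _ = l ^ 8 := by ring
  have hqt : t ≤ q := by
    have h1 : l ^ 6 ≤ 2 ^ (l * d + 16 * lam) :=
      (hpowlam 6).trans (Nat.pow_le_pow_right (by norm_num) (by nlinarith))
    omega
  have hqn : n ^ d < q := by
    refine lt_of_le_of_lt ?_ hq1
    calc n ^ d ≤ (2 ^ l) ^ d := Nat.pow_le_pow_left hnl d
      _ = 2 ^ (l * d) := by rw [pow_mul]
      _ ≤ _ := Nat.pow_le_pow_right (by norm_num) (by omega)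
  have hqD : 3 * (d * (t * (c + 1))) ≤ q := by
    have h1 : 3 * (d * (t * (c + 1))) ≤ l ^ 10 := by
      calc 3 * (d * (t * (c + 1))) ≤ l * (l * l ^ 8) := by
            apply Nat.mul_le_mul (by omega)
            apply Nat.mul_le_mul (by omega) hD
        _ = l ^ 10 := by ring
    have h2 : l ^ 10 ≤ 2 ^ (l * d + 16 * lam) :=
      (hpowlam 10).trans (Nat.pow_le_pow_right (by norm_num) (by nlinarith))
    omega
  set b := l * d + 16 * lam + 1 with hb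
  have hqb : q ≤ 2 ^ b := by
    rw [hb, pow_succ]; omega
  have hbl : b ≤ l ^ 2 := by
    rw [hb]; nlinarith
  have main := engine hspos htpos hts hqt hqn hqD cA cB α Ψ hyes hno hW hqb
  refine main.mono ?_ (fun _ _ h => h) (fun _ _ h => h)
  -- numerical estimate
  have h8 : 8 * (lam * d) ≤ l / 5 := by omega
  have hDd : (t * (c + 1)) ^ d ≤ 2 ^ (l / 5) := by
    calc (t * (c + 1)) ^ d ≤ (l ^ 8) ^ d := Nat.pow_le_pow_left hD d
      _ = l ^ (8 * d) := by rw [← pow_mul]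
      _ ≤ 2 ^ (8 * d * lam) := hpowlam _
      _ = 2 ^ (8 * (lam * d)) := by ring_nf
      _ ≤ 2 ^ (l / 5) := Nat.pow_le_pow_right (by norm_num) h8
  have hlpos : (0:ℝ) < l := by
    have : 0 < l := by omega
    exact_mod_cast this
  have hl100 : (100:ℝ) ≤ l := by
    have : 100 ≤ l := by omega
    exact_mod_cast this
  -- first term
  have T1 : ((b * (t * (c + 1)) ^ d : ℕ) : ℝ) ≤ n / (8 * l) := by
    rw [le_div_iff₀ (by positivity)]
    have h1 : b * (t * (c + 1)) ^ d * (8 * l) ≤ n := by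
      calc b * (t * (c + 1)) ^ d * (8 * l) ≤ l ^ 2 * 2 ^ (l / 5) * (8 * l) := by
            gcongr
        _ = 8 * l ^ 3 * 2 ^ (l / 5) := by ring
        _ ≤ 2 ^ (l - 1) := E1
        _ ≤ n := hln.le
    exact_mod_cast h1
  have T2 : ((b * (d * s * c) + 1 : ℕ) : ℝ) ≤ 8 * l ^ 4 * (n / l ^ 6 + 1) + 1 := by
    have h1 : (b * (d * s * c) + 1 : ℕ) ≤ 8 * l ^ 4 * s + 1 := by
      have : b * (d * s * c) ≤ l ^ 2 * (l * s * (8 * l)) := by
        apply Nat.mul_le_mul hbl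
        apply Nat.mul_le_mul _ hc
        apply Nat.mul_le_mul_right
        omega
      calc b * (d * s * c) + 1 ≤ l ^ 2 * (l * s * (8 * l)) + 1 := by omega
        _ = 8 * l ^ 4 * s + 1 := by ring
    have h2 : (s : ℝ) ≤ n / l ^ 6 + 1 := by
      rw [hs]
      push_cast
      have h3 : ((n / t : ℕ) : ℝ) ≤ (n : ℝ) / (t : ℝ) := Nat.cast_div_le
      rw [ht] at h3
      push_cast at h3
      rw [ht]
      linarith
    calc ((b * (d * s * c) + 1 : ℕ) : ℝ) ≤ ((8 * l ^ 4 * s + 1 : ℕ) : ℝ) := by exact_mod_cast h1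
      _ = 8 * l ^ 4 * s + 1 := by push_cast; ring
      _ ≤ _ := by gcongr
  have T3 : (8 * (l:ℝ) ^ 4 * (n / l ^ 6 + 1) + 1) ≤ n / (2 * l) := by
    have h1 : 8 * (l:ℝ) ^ 4 * (n / l ^ 6) = 8 * n / l ^ 2 := by
      field_simp
    have h2 : 8 * (n:ℝ) / l ^ 2 ≤ n / (4 * l) := by
      rw [div_le_div_iff₀ (by positivity) (by positivity)]
      have : (0:ℝ) ≤ n * l := by positivity
      nlinarith
    have h3 : (8 * (l:ℝ) ^ 4 + 1) ≤ n / (4 * l) := by
      rw [le_div_iff₀ (by positivity)]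
      have h4 : (8 * l ^ 4 + 1) * (4 * l) ≤ n := by
        calc (8 * l ^ 4 + 1) * (4 * l) ≤ (8 * l ^ 4 + 8 * l ^ 4) * (4 * l) := by
              apply Nat.mul_le_mul_right
              have : 1 ≤ l ^ 4 := Nat.one_le_pow _ _ (by omega)
              omega
          _ = 64 * l ^ 5 * 1 := by ring
          _ ≤ 64 * l ^ 5 * 2 ^ (l / 5) := Nat.mul_le_mul_left _ Nat.one_le_two_pow
          _ ≤ 2 ^ (l - 1) := E2
          _ ≤ n := hln.le
      exact_mod_cast h4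
    have h5 : (n:ℝ) / (4 * l) + n / (4 * l) = n / (2 * l) := by
      field_simp; ring
    have h6 : (8 * (l:ℝ) ^ 4 * ((n:ℝ) / (l:ℝ) ^ 6 + 1) + 1)
        = 8 * (l:ℝ) ^ 4 * ((n:ℝ) / (l:ℝ) ^ 6) + (8 * (l:ℝ) ^ 4 + 1) := by ring
    rw [h6, h1]
    linarith
  have T4 : (n:ℝ) / (8 * l) + n / (2 * l) ≤ n / l := by
    have : (n:ℝ) / (8 * l) + n / (2 * l) = (5 / 8) * (n / l) := by
      field_simp; ring
    rw [this]
    have : (0:ℝ) ≤ n / l := by positivity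
    linarith
  have T5 : ((p0 + b * (t * (c + 1)) ^ d + (b * (d * s * c) + 1) : ℕ) : ℝ)
      = p0 + ((b * (t * (c + 1)) ^ d : ℕ) : ℝ) + ((b * (d * s * c) + 1 : ℕ) : ℝ) := by
    push_cast; ring
  rw [T5]
  linarith

end Helper42_MA
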