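import Mathlib

set_option autoImplicit false

namespace Helper42_MA

open Finset Classical

/-- One-way Merlin–Arthur protocols (public coins, proof first) for promise problems on pairs of
graphs, with cost (proof length plus message length) at most `bits`. -/
def HasMA (n : ℕ) (bits : ℝ) (YES NO : SimpleGraph (Fin n) → SimpleGraph (Fin n) → Prop) : Prop :=
  ∃ k p m : ℕ, 0 < k ∧ ((p + m : ℕ) : ℝ) ≤ bits ∧
    ∃ A : Fin k → (Fin p → Bool) → SimpleGraph (Fin n) → (Fin m → Bool),
    ∃ B : Fin k → (Fin p → Bool) → SimpleGraph (Fin n) → (Fin m → Bool) → Bool,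
      ∀ x y : SimpleGraph (Fin n),
        (YES x y → ∃ w : Fin p → Bool,
            2 * k ≤ 3 * (Finset.univ.filter
              (fun r : Fin k => B r w y (A r w x) = true)).card) ∧
        (NO x y → ∀ w : Fin p → Bool,
            3 * (Finset.univ.filter
              (fun r : Fin k => B r w y (A r w x) = true)).card ≤ k)

theorem HasMA.mono {n : ℕ} {b b' : ℝ} {YES NO YES' NO' : SimpleGraph (Fin n) → SimpleGraph (Fin n) → Prop}
    (h : HasMA n b YES NO) (hb : b ≤ b') (hY : ∀ x y, YES' x y → YES x y)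
    (hN : ∀ x y, NO' x y → NO x y) : HasMA n b' YES' NO' := by
  obtain ⟨k, p, m, hk, hpm, A, B, H⟩ := h
  exact ⟨k, p, m, hk, hpm.trans hb, A, B, fun x y =>
    ⟨fun hy => (H x y).1 (hY x y hy), fun hn => (H x y).2 (hN x y hn)⟩⟩

/-- Protocols over arbitrary finite types give protocols over bit strings. -/
theorem HasMA.of_finite {n p m : ℕ} {YES NO : SimpleGraph (Fin n) → SimpleGraph (Fin n) → Prop}
    (Ω W Msg : Type) [Fintype Ω] [Nonempty Ω] [Fintype W] [Nonempty W] [Fintype Msg] [Nonempty Msg]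
    (hW : Fintype.card W ≤ 2 ^ p) (hM : Fintype.card Msg ≤ 2 ^ m)
    (A : Ω → W → SimpleGraph (Fin n) → Msg)
    (B : Ω → W → SimpleGraph (Fin n) → Msg → Bool)
    (hY : ∀ x y, YES x y → ∃ w, 2 * Fintype.card Ω ≤
      3 * (univ.filter (fun r : Ω => B r w y (A r w x) = true)).card)
    (hN : ∀ x y, NO x y → ∀ w, 3 * (univ.filter (fun r : Ω => B r w y (A r w x) = true)).card
      ≤ Fintype.card Ω) :
    HasMA n ((p + m : ℕ) : ℝ) YES NO := by
  have hWe : Nonempty (W ↪ (Fin p → Bool)) := by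
    apply Function.Embedding.nonempty_of_card_le
    simpa using hW
  have hMe : Nonempty (Msg ↪ (Fin m → Bool)) := by
    apply Function.Embedding.nonempty_of_card_le
    simpa using hM
  obtain ⟨eW⟩ := hWe
  obtain ⟨eM⟩ := hMe
  let e : Fin (Fintype.card Ω) ≃ Ω := (Fintype.equivFin Ω).symm
  let dW : (Fin p → Bool) → W := Function.invFun eW
  let dM : (Fin m → Bool) → Msg := Function.invFun eM
  have hdW : ∀ w, dW (eW w) = w := Function.leftInverse_invFun eW.injective
  have hdM : ∀ w, dM (eM w) = w := Function.leftInverse_invFun eM.injective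
  have key : ∀ (x y : SimpleGraph (Fin n)) (w : W),
      (univ.filter (fun r : Fin (Fintype.card Ω) => B (e r) w y (A (e r) w x) = true)).card
        = (univ.filter (fun r : Ω => B r w y (A r w x) = true)).card := by
    intro x y w
    apply Finset.card_bij (fun r _ => e r)
    · intro r hr; simpa using hr
    · intro a _ b _ h; exact e.injective h
    · intro b hb; exact ⟨e.symm b, by simpa using hb, by simp⟩
  refine ⟨Fintype.card Ω, p, m, Fintype.card_pos, le_refl _,
    fun r w x => eM (A (e r) (dW w) x), fun r w y z => B (e r) (dW w) y (dM z), ?_⟩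
  intro x y
  refine ⟨fun hy => ?_, fun hn w => ?_⟩
  · obtain ⟨w, hw⟩ := hY x y hy
    refine ⟨eW w, ?_⟩
    simp only [hdW, hdM]
    rw [key]; exact hw
  · simp only [hdM]
    rw [key]; exact hN x y hn _

/-- Two protocols with the same `NO` side can be run side by side. -/
theorem HasMA.union {n : ℕ} {b₁ b₂ : ℝ}
    {YES₁ YES₂ NO : SimpleGraph (Fin n) → SimpleGraph (Fin n) → Prop}
    (h₁ : HasMA n b₁ YES₁ NO) (h₂ : HasMA n b₂ YES₂ NO) :
    HasMA n (b₁ + b₂ + 1) (fun x y => YES₁ x y ∨ YES₂ x y) NO := by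
  obtain ⟨k₁, p₁, m₁, hk₁, hpm₁, A₁, B₁, H₁⟩ := h₁
  obtain ⟨k₂, p₂, m₂, hk₂, hpm₂, A₂, B₂, H₂⟩ := h₂
  haveI : NeZero k₁ := ⟨hk₁.ne'⟩
  haveI : NeZero k₂ := ⟨hk₂.ne'⟩
  have hf₁ : ∀ (x y : SimpleGraph (Fin n)) (w : Fin p₁ → Bool),
      (univ.filter (fun r : Fin k₁ × Fin k₂ => B₁ r.1 w y (A₁ r.1 w x) = true)).card
        = (univ.filter (fun r : Fin k₁ => B₁ r w y (A₁ r w x) = true)).card * k₂ := by
    intro x y w
    have : (univ.filter (fun r : Fin k₁ × Fin k₂ => B₁ r.1 w y (A₁ r.1 w x) = true))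
        = (univ.filter (fun r : Fin k₁ => B₁ r w y (A₁ r w x) = true)) ×ˢ (univ : Finset (Fin k₂)) := by
      ext ⟨a, b⟩; simp
    rw [this, card_product]; simp
  have hf₂ : ∀ (x y : SimpleGraph (Fin n)) (w : Fin p₂ → Bool),
      (univ.filter (fun r : Fin k₁ × Fin k₂ => B₂ r.2 w y (A₂ r.2 w x) = true)).card
        = k₁ * (univ.filter (fun r : Fin k₂ => B₂ r w y (A₂ r w x) = true)).card := by
    intro x y w
    have : (univ.filter (fun r : Fin k₁ × Fin k₂ => B₂ r.2 w y (A₂ r.2 w x) = true))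
        = (univ : Finset (Fin k₁)) ×ˢ (univ.filter (fun r : Fin k₂ => B₂ r w y (A₂ r w x) = true)) := by
      ext ⟨a, b⟩; simp
    rw [this, card_product]; simp
  have hcard : Fintype.card (Fin k₁ × Fin k₂) = k₁ * k₂ := by simp
  have := HasMA.of_finite (n := n) (p := p₁ + p₂ + 1) (m := m₁ + m₂)
    (YES := fun x y => YES₁ x y ∨ YES₂ x y) (NO := NO)
    (Fin k₁ × Fin k₂) (Bool × (Fin p₁ → Bool) × (Fin p₂ → Bool))
    ((Fin m₁ → Bool) × (Fin m₂ → Bool))
    (by simp [pow_add]; ring_nf; rfl)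
    (by simp [pow_add])
    (fun r w x => (A₁ r.1 w.2.1 x, A₂ r.2 w.2.2 x))
    (fun r w y z => if w.1 then B₁ r.1 w.2.1 y z.1 else B₂ r.2 w.2.2 y z.2)
    (by
      rintro x y (hy | hy)
      · obtain ⟨w, hw⟩ := (H₁ x y).1 hy
        refine ⟨(true, w, fun _ => false), ?_⟩
        simp only [if_true]
        rw [hf₁, hcard]
        nlinarith
      · obtain ⟨w, hw⟩ := (H₂ x y).1 hy
        refine ⟨(false, fun _ => false, w), ?_⟩
        simp only [Bool.false_eq_true, if_false]
        rw [hf₂, hcard]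
        nlinarith)
    (by
      rintro x y hn ⟨b, w₁, w₂⟩
      cases b
      · simp only [Bool.false_eq_true, if_false]
        rw [hf₂, hcard]
        have := (H₂ x y).2 hn w₂
        nlinarith
      · simp only [if_true]
        rw [hf₁, hcard]
        have := (H₁ x y).2 hn w₁
        nlinarith)
  refine this.mono ?_ (fun _ _ h => h) (fun _ _ h => h)
  push_cast at hpm₁ hpm₂ ⊢
  linarith

end Helper42_MA
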