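import Pool.Agent.Helper42_MA.ChainCert

set_option autoImplicit false

namespace Helper42_MA

open Finset Classical

section
variable {n l d0 N K : ℕ}

theorem exists_code (h : n ≤ 2 ^ l) (hn : 0 < n) :
    ∃ (code : Fin n → (Fin l → Bool)) (dec : (Fin l → Bool) → Fin n), ∀ v, dec (code v) = v := by
  have : Nonempty (Fin n ↪ (Fin l → Bool)) := by
    apply Function.Embedding.nonempty_of_card_le
    simpa using h
  obtain ⟨e⟩ := this
  have : Nonempty (Fin n) := ⟨⟨0, hn⟩⟩
  exact ⟨e, Function.invFun e, Function.leftInverse_invFun e.injective⟩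

/-- Certificates of type I: root, marked vertices for Alice, marked vertices for Bob, centres with
labels. -/
abbrev WI (n N K : ℕ) : Type :=
  Fin n × Sparse n Bool false N × Sparse n Bool false N × Sparse n (Option (Fin (n + 1))) none K

def badI (dec : (Fin l → Bool) → Fin n) (w : WI n N K) (y : SimpleGraph (Fin n))
    (v : Fin (d0 + 1) → Fin n) (β : Fin (d0 + 1) → Fin l → Bool) : Prop :=
  (∀ i : Fin d0, v i.succ = rep y w.2.2.1.1 (dec (β i.castSucc))) ∧ v 0 ≠ w.1 ∧
  (∀ i : Fin (d0 + 1), dec (β i) ≠ w.1 ∧ ¬ below (w.2.2.2.1 (dec (β i))) (w.2.2.2.1 (v 0))) ∧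
  (∀ i : Fin (d0 + 1), v i ≠ w.1 ∧ ¬ below (w.2.2.2.1 (v i)) (w.2.2.2.1 (v 0)))

theorem soundI (code : Fin n → (Fin l → Bool)) (dec : (Fin l → Bool) → Fin n)
    (hdec : ∀ v, dec (code v) = v) (w : WI n N K) (x y : SimpleGraph (Fin n))
    (h : ∀ v : Fin (d0 + 1) → Fin n, ¬ badI dec w y v (fun k => code (rep x w.2.1.1 (v k)))) :
    (x ⊔ y).Connected := by
  obtain ⟨r, PA, PB, g⟩ := w
  simp only at h
  set a := rep x PA.1 with ha
  set b := rep y PB.1 with hb
  have hxa : ∀ v, (x ⊔ y).Reachable v (a v) := fun v =>
    (rep_reachable x PA.1 v).mono le_sup_left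
  have hyb : ∀ v, (x ⊔ y).Reachable v (b v) := fun v =>
    (rep_reachable y PB.1 v).mono le_sup_right
  have hit : ∀ j v, (x ⊔ y).Reachable v ((fun u => b (a u))^[j] v) := by
    intro j
    induction j with
    | zero => intro v; exact SimpleGraph.Reachable.refl v
    | succ j ih =>
      intro v
      rw [Function.iterate_succ_apply]
      exact ((hxa v).trans (hyb (a v))).trans (ih _)
  -- one step
  have step : ∀ v0, v0 ≠ r → ∃ u, (x ⊔ y).Reachable v0 u ∧ (u = r ∨ below (g.1 u) (g.1 v0)) := by
    intro v0 hv0
    have h1 := h (fun i => (fun u => b (a u))^[(i : ℕ)] v0)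
    unfold badI at h1
    simp only [hdec] at h1
    by_contra hcon
    push Not at hcon
    apply h1
    refine ⟨?_, hv0, ?_, ?_⟩
    · intro i
      simp only [Fin.val_succ, Fin.val_castSucc]
      rw [Function.iterate_succ_apply']
    · intro i
      have := hcon (a ((fun u => b (a u))^[(i : ℕ)] v0)) ((hit i v0).trans (hxa _))
      simpa using this
    · intro i
      have := hcon ((fun u => b (a u))^[(i : ℕ)] v0) (hit i v0)
      simpa using this
  -- centres reach the root
  have hcen : ∀ k : ℕ, ∀ v0 (j : Fin (n + 1)), g.1 v0 = some j → (j : ℕ) ≤ k →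
      (x ⊔ y).Reachable v0 r := by
    intro k
    induction k with
    | zero =>
      intro v0 j hj hj0
      by_cases hv : v0 = r
      · rw [hv]
      obtain ⟨u, hu, hur | hlt⟩ := step v0 hv
      · rwa [hur] at hu
      · rw [hj] at hlt
        cases hgu : g.1 u with
        | none => rw [hgu] at hlt; exact absurd hlt (by simp [below])
        | some j' =>
          rw [hgu] at hlt
          simp only [below, Fin.lt_def] at hlt
          omega
    | succ k ih =>
      intro v0 j hj hj0
      by_cases hv : v0 = r
      · rw [hv]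
      obtain ⟨u, hu, hur | hlt⟩ := step v0 hv
      · rwa [hur] at hu
      · rw [hj] at hlt
        cases hgu : g.1 u with
        | none => rw [hgu] at hlt; exact absurd hlt (by simp [below])
        | some j' =>
          rw [hgu] at hlt
          simp only [below, Fin.lt_def] at hlt
          exact hu.trans (ih u j' hgu (by omega))
  have hall : ∀ v0, (x ⊔ y).Reachable v0 r := by
    intro v0
    by_cases hv : v0 = r
    · rw [hv]
    obtain ⟨u, hu, hur | hlt⟩ := step v0 hv
    · rwa [hur] at hu
    · cases hgu : g.1 u with
      | none => rw [hgu] at hlt; cases hh : g.1 v0 <;> rw [hh] at hlt <;> simp [below] at hlt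
      | some j' => exact hu.trans (hcen j' u j' hgu le_rfl)
  have : Nonempty (Fin n) := ⟨r⟩
  exact ⟨fun u v => (hall u).trans (hall v).symm⟩

theorem completeI (code : Fin n → (Fin l → Bool)) (dec : (Fin l → Bool) → Fin n)
    (hdec : ∀ v, dec (code v) = v) (x y : SimpleGraph (Fin n)) (hG : (x ⊔ y).Connected)
    (hN : Fintype.card x.ConnectedComponent ≤ N ∨ Fintype.card y.ConnectedComponent ≤ N)
    (hd0 : 0 < d0) (hK : N / d0 ≤ K) :
    ∃ w : WI n N K, ∀ v : Fin (d0 + 1) → Fin n,
      ¬ badI dec w y v (fun k => code (rep x w.2.1.1 (v k))) := by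
  obtain ⟨r⟩ := hG.nonempty
  set δ : Fin n → ℕ := fun u => (x ⊔ y).dist u r with hδ
  have hb : ∀ u, δ u ≤ n := by
    intro u
    obtain ⟨p, hp, hp2⟩ := hG.exists_path_of_dist u r
    have h3 := hp.length_lt
    rw [Fintype.card_fin] at h3
    rw [hδ]; simp only; omega
  set pa := amin x δ with hpa
  set pb := amin y δ with hpb
  have hxy : (y ⊔ x) = (x ⊔ y) := sup_comm _ _
  have stepA : ∀ v, pa v ≠ r → δ (pb (pa v)) < δ (pa v) := by
    intro v hv
    apply amin_step x y hG r hv
    intro w hw
    have h1 : x.Reachable v w := (amin_reachable x δ v).trans hw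
    exact amin_le x δ h1
  have stepB : ∀ v, pb v ≠ r → δ (pa (pb v)) < δ (pb v) := by
    intro v hv
    have hG' : (y ⊔ x).Connected := by rw [hxy]; exact hG
    have h0 := amin_step y x hG' r (u := pb v) hv
    rw [hxy] at h0
    apply h0
    intro w hw
    have h1 : y.Reachable v w := (amin_reachable y δ v).trans hw
    exact amin_le y δ h1
  rcases hN with hN | hN
  · -- Case 1: few components of x
    set S := univ.image pa with hS
    have hScard : S.card ≤ N := (card_image_amin x δ).trans hN
    have hSmem : ∀ v, pa v ∈ S := fun v => Finset.mem_image_of_mem _ (Finset.mem_univ v)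
    have hSid : ∀ u ∈ S, pa u = u := by
      intro u hu
      obtain ⟨v, _, rfl⟩ := Finset.mem_image.mp hu
      exact amin_amin x δ v
    set S' := S.image pb with hS'
    have hS'card : S'.card ≤ N := Finset.card_image_le.trans hScard
    obtain ⟨g, hg1, hg2, hg3⟩ := exists_levels (fun u => pa (pb u)) S (fun u _ => hSmem _) r δ
      (by
        intro u hu hur
        have h1 := hSid u hu
        have h2 := stepA u (by rw [h1]; exact hur)
        rw [h1] at h2
        have h3 : δ (pa (pb u)) ≤ δ (pb u) := amin_le x δ (SimpleGraph.Reachable.refl _)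
        exact h3.trans_lt h2) hb d0 hd0
    refine ⟨(r, ⟨fun v => decide (v ∈ S), ?_⟩, ⟨fun v => decide (v ∈ S'), ?_⟩, ⟨g, ?_⟩), ?_⟩
    · simpa using hScard
    · simpa using hS'card
    · have h0 := hg1.trans ((Nat.div_le_div_right (c := d0) hScard).trans hK)
      refine le_trans (le_of_eq ?_) h0
      congr 1
      ext v
      simp
    · intro v hbad
      obtain ⟨h1, h2, h3, h4⟩ := hbad
      simp only [hdec] at h1 h2 h3 h4
      have ha : ∀ u, rep x (fun v => decide (v ∈ S)) u = pa u := by
        intro u
        apply rep_eq_of_unique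
        · simpa using hSmem u
        · exact amin_reachable x δ u
        · intro p' hp' hup'
          have h5 : p' ∈ S := by simpa using hp'
          rw [← hSid p' h5]
          exact (amin_congr x δ hup').symm
      have hbb : ∀ u ∈ S, rep y (fun v => decide (v ∈ S')) u = pb u := by
        intro u hu
        apply rep_eq_of_unique
        · exact decide_eq_true (Finset.mem_image_of_mem pb hu)
        · exact amin_reachable y δ u
        · intro p' hp' hup'
          have h5 : p' ∈ S' := by simpa using hp'
          obtain ⟨u', hu', rfl⟩ := Finset.mem_image.mp h5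
          have h6 : y.Reachable u u' := hup'.trans (amin_reachable y δ u').symm
          exact (amin_congr y δ h6).symm
      simp only [ha] at h1 h3
      -- A_i = f^[i] A_0
      have hA : ∀ i : ℕ, ∀ hi : i < d0 + 1, pa (v ⟨i, hi⟩) = (fun u => pa (pb u))^[i] (pa (v 0)) := by
        intro i
        induction i with
        | zero => intro hi; rfl
        | succ i ih =>
          intro hi
          have h5 := h1 ⟨i, by omega⟩
          have e1 : (⟨i, by omega⟩ : Fin d0).succ = (⟨i + 1, hi⟩ : Fin (d0 + 1)) := rfl
          have e2 : (⟨i, by omega⟩ : Fin d0).castSucc = (⟨i, by omega⟩ : Fin (d0 + 1)) := rfl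
          rw [e1, e2] at h5
          rw [h5, Function.iterate_succ_apply', ← ih (by omega), hbb _ (hSmem _)]
      by_cases hgv : g (v 0) = none
      · obtain ⟨j, hj, hj2⟩ := hg2 (pa (v 0)) (hSmem _)
        rw [← hA j (by omega)] at hj2
        have h5 := h3 ⟨j, by omega⟩
        rcases hj2 with hj2 | hj2
        · exact h5.1 hj2
        · apply h5.2
          rw [hgv]
          cases hh : g (pa (v ⟨j, by omega⟩)) with
          | none => exact absurd hh hj2
          | some k => trivial
      · obtain ⟨hmS, j, hj1, hj2, hj3⟩ := hg3 (v 0) h2 hgv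
        have hid := hSid _ hmS
        have h6 := hA j (by omega)
        rw [hid] at h6
        rw [← h6] at hj3
        have h5 := h3 ⟨j, by omega⟩
        rcases hj3 with hj3 | hj3
        · exact h5.1 hj3
        · exact h5.2 hj3
  · -- Case 2: few components of y
    set S := univ.image pb with hS
    have hScard : S.card ≤ N := (card_image_amin y δ).trans hN
    have hSmem : ∀ v, pb v ∈ S := fun v => Finset.mem_image_of_mem _ (Finset.mem_univ v)
    have hSid : ∀ u ∈ S, pb u = u := by
      intro u hu
      obtain ⟨v, _, rfl⟩ := Finset.mem_image.mp hu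
      exact amin_amin y δ v
    set S' := S.image pa with hS'
    have hS'card : S'.card ≤ N := Finset.card_image_le.trans hScard
    obtain ⟨g, hg1, hg2, hg3⟩ := exists_levels (fun u => pb (pa u)) S (fun u _ => hSmem _) r δ
      (by
        intro u hu hur
        have h1 := hSid u hu
        have h2 := stepB u (by rw [h1]; exact hur)
        rw [h1] at h2
        have h3 : δ (pb (pa u)) ≤ δ (pa u) := amin_le y δ (SimpleGraph.Reachable.refl _)
        exact h3.trans_lt h2) hb d0 hd0
    refine ⟨(r, ⟨fun v => decide (v ∈ S'), ?_⟩, ⟨fun v => decide (v ∈ S), ?_⟩, ⟨g, ?_⟩), ?_⟩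
    · simpa using hS'card
    · simpa using hScard
    · have h0 := hg1.trans ((Nat.div_le_div_right (c := d0) hScard).trans hK)
      refine le_trans (le_of_eq ?_) h0
      congr 1
      ext v
      simp
    · intro v hbad
      obtain ⟨h1, h2, h3, h4⟩ := hbad
      simp only [hdec] at h1 h2 h3 h4
      have hbb : ∀ u, rep y (fun v => decide (v ∈ S)) u = pb u := by
        intro u
        apply rep_eq_of_unique
        · simpa using hSmem u
        · exact amin_reachable y δ u
        · intro p' hp' hup'
          have h5 : p' ∈ S := by simpa using hp'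
          rw [← hSid p' h5]
          exact (amin_congr y δ hup').symm
      have ha : ∀ u ∈ S, rep x (fun v => decide (v ∈ S')) u = pa u := by
        intro u hu
        apply rep_eq_of_unique
        · exact decide_eq_true (Finset.mem_image_of_mem pa hu)
        · exact amin_reachable x δ u
        · intro p' hp' hup'
          have h5 : p' ∈ S' := by simpa using hp'
          obtain ⟨u', hu', rfl⟩ := Finset.mem_image.mp h5
          have h6 : x.Reachable u u' := hup'.trans (amin_reachable x δ u').symm
          exact (amin_congr x δ h6).symm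
      simp only [hbb] at h1
      -- positions after the first are in S
      have hvS : ∀ i : Fin d0, v i.succ ∈ S := fun i => by rw [h1 i]; exact hSmem _
      have hstep : ∀ i : ℕ, ∀ hi : i + 1 < d0 + 1, v ⟨i, by omega⟩ ∈ S →
          v ⟨i + 1, hi⟩ = pb (pa (v ⟨i, by omega⟩)) := by
        intro i hi hmem
        have h5 := h1 ⟨i, by omega⟩
        have e1 : (⟨i, by omega⟩ : Fin d0).succ = (⟨i + 1, hi⟩ : Fin (d0 + 1)) := rfl
        have e2 : (⟨i, by omega⟩ : Fin d0).castSucc = (⟨i, by omega⟩ : Fin (d0 + 1)) := rfl
        rw [e1, e2] at h5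
        rw [h5, ha _ hmem]
      by_cases hgv : g (v 0) = none
      · have hB : ∀ i : ℕ, ∀ hi : i + 1 < d0 + 1,
            v ⟨i + 1, hi⟩ = (fun u => pb (pa u))^[i] (v ⟨1, by omega⟩) := by
          intro i
          induction i with
          | zero => intro hi; rfl
          | succ i ih =>
            intro hi
            rw [hstep (i + 1) hi (hvS ⟨i, by omega⟩), Function.iterate_succ_apply',
              ← ih (by omega)]
        obtain ⟨j, hj, hj2⟩ := hg2 (v ⟨1, by omega⟩) (hvS ⟨0, hd0⟩)
        rw [← hB j (by omega)] at hj2
        have h5 := h4 ⟨j + 1, by omega⟩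
        rcases hj2 with hj2 | hj2
        · exact h5.1 hj2
        · apply h5.2
          rw [hgv]
          cases hh : g (v ⟨j + 1, by omega⟩) with
          | none => exact absurd hh hj2
          | some k => trivial
      · obtain ⟨hmS, j, hj1, hj2, hj3⟩ := hg3 (v 0) h2 hgv
        have hB : ∀ i : ℕ, ∀ hi : i < d0 + 1,
            v ⟨i, hi⟩ = (fun u => pb (pa u))^[i] (v 0) := by
          intro i
          induction i with
          | zero => intro hi; rfl
          | succ i ih =>
            intro hi
            have hmem : v ⟨i, by omega⟩ ∈ S := by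
              rcases Nat.eq_zero_or_pos i with h0 | h0
              · subst h0; exact hmS
              · have h7 := hvS ⟨i - 1, by omega⟩
                have e1 : (⟨i - 1, by omega⟩ : Fin d0).succ = (⟨i, by omega⟩ : Fin (d0 + 1)) := by
                  apply Fin.ext; simp; omega
                rwa [e1] at h7
            rw [hstep i hi hmem, Function.iterate_succ_apply', ← ih (by omega)]
        rw [← hB j (by omega)] at hj3
        have h5 := h4 ⟨j, by omega⟩
        rcases hj3 with hj3 | hj3
        · exact h5.1 hj3
        · exact h5.2 hj3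

end

end Helper42_MA
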