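import Pool.Agent.Helper42_MA.ExplCert

set_option autoImplicit false

namespace Helper42_MA

open Finset Classical Filter

theorem exists_code2 {n l : ℕ} (h : n ≤ 2 ^ l) (hn : 0 < n) :
    ∃ (code : Fin n × Bool → (Fin (l + 1) → Bool)) (dec : (Fin (l + 1) → Bool) → Fin n × Bool),
      ∀ v, dec (code v) = v := by
  have : Nonempty (Fin n × Bool ↪ (Fin (l + 1) → Bool)) := by
    apply Function.Embedding.nonempty_of_card_le
    simp only [Fintype.card_prod, Fintype.card_fin, Fintype.card_bool, Fintype.card_fun]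
    rw [pow_succ]; omega
  obtain ⟨e⟩ := this
  have : Nonempty (Fin n × Bool) := ⟨(⟨0, hn⟩, true)⟩
  exact ⟨e, Function.invFun e, Function.leftInverse_invFun e.injective⟩

/-- The number of centres used. -/
noncomputable def numC (n D : ℕ) : ℕ := ⌊(n:ℝ) * (1 + Real.log D) / D + 1⌋₊

/-- For connected union graphs the exploration sets can be hit. -/
theorem exists_centres {n D : ℕ} (hD : 1 ≤ D) (hDn : D ≤ n) (x y : SimpleGraph (Fin n))
    (hG : (x ⊔ y).Connected) :
    ∃ M0 : Finset (Fin n), (∀ s, (exT (ptr x) y s D ∩ M0).Nonempty) ∧ M0.card ≤ numC n D := by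
  have hn : 0 < n := by omega
  obtain ⟨M, h1, h2⟩ := exists_hitting (fun s => exT (ptr x) y s D) D hD (by
    intro s
    rcases card_exT x y (ptr x) (ptr_closed x) hG s D with h | h
    · exact h
    · rw [h, Finset.card_univ, Fintype.card_fin]; exact hDn) hn
  exact ⟨M, h1, Nat.le_floor h2⟩

/-- Numerical facts about `D = ℓ / (80 λ)` and the number of centres. -/
theorem ev_numC : ∀ᶠ n : ℕ in atTop,
    1 ≤ Nat.clog 2 n / (80 * Nat.clog 2 (Nat.clog 2 n)) ∧
    Nat.clog 2 n / (80 * Nat.clog 2 (Nat.clog 2 n)) ≤ n ∧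
    (numC n (Nat.clog 2 n / (80 * Nat.clog 2 (Nat.clog 2 n))) : ℝ)
      ≤ 4000 * (n * Real.log (Real.log n) ^ 2 / Real.log n) := by
  filter_upwards [ev_facts] with n hn
  obtain ⟨h3, e1, e2, e3, hLL, hL, e4, e5, hsq⟩ := hn
  set l := Nat.clog 2 n with hl
  set lam := Nat.clog 2 l with hlam
  set D := l / (80 * lam) with hD
  have hD5 : 5 ≤ D := by
    rw [hD, Nat.le_div_iff_mul_le (by omega)]; omega
  have hDl : D ≤ l := Nat.div_le_self _ _
  have hln : l ≤ n := Nat.clog_le_of_le_pow (Nat.lt_two_pow_self).le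
  refine ⟨by omega, by omega, ?_⟩
  have hDpos : (0:ℝ) < D := by
    have : 0 < D := by omega
    exact_mod_cast this
  have hn0 : (0:ℝ) < n := by
    have : 0 < n := by omega
    exact_mod_cast this
  have hD2 : l ≤ 160 * lam * D := by
    have h6 := Nat.mod_lt l (show 0 < 80 * lam by omega)
    have h7 := Nat.div_add_mod l (80 * lam)
    rw [← hD] at h7
    nlinarith
  have hD2' : (l:ℝ) ≤ 160 * lam * D := by exact_mod_cast hD2
  have hlam0 : (0:ℝ) ≤ lam := by positivity
  have hinv : (1:ℝ) / D ≤ 800 * (Real.log (Real.log n) / Real.log n) := by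
    rw [div_le_iff₀ hDpos]
    have h8 : Real.log n ≤ 800 * Real.log (Real.log n) * D := by
      calc Real.log n ≤ l := e2
        _ ≤ 160 * lam * D := hD2'
        _ ≤ 160 * (5 * Real.log (Real.log n)) * D := by gcongr
        _ = _ := by ring
    have h9 : 800 * (Real.log (Real.log n) / Real.log n) * D
        = (800 * Real.log (Real.log n) * D) / Real.log n := by ring
    rw [h9, le_div_iff₀ (by linarith)]
    linarith
  have hlogD : 1 + Real.log D ≤ 4 * Real.log (Real.log n) := by
    have h1 : Real.log D ≤ Real.log (3 * Real.log n) := by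
      apply Real.log_le_log hDpos
      have : (D:ℝ) ≤ l := by exact_mod_cast hDl
      linarith
    rw [Real.log_mul (by norm_num) (by linarith)] at h1
    have h5 : Real.log 3 ≤ 2 := by
      have := Real.log_le_sub_one_of_pos (show (0:ℝ) < 3 by norm_num)
      linarith
    linarith
  have hfl : (numC n D : ℝ) ≤ (n:ℝ) * (1 + Real.log D) / D + 1 := by
    unfold numC
    apply Nat.floor_le
    have : 0 ≤ Real.log D := Real.log_natCast_nonneg D
    positivity
  have hX1 : (1:ℝ) ≤ n * Real.log (Real.log n) ^ 2 / Real.log n := by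
    rw [le_div_iff₀ (by linarith)]
    have h1 : (1:ℝ) ≤ Real.log (Real.log n) ^ 2 := by nlinarith
    nlinarith
  have hX2 : (n:ℝ) * (1 + Real.log D) / D ≤ 3200 * (n * Real.log (Real.log n) ^ 2 / Real.log n) := by
    have h0 : 0 ≤ Real.log D := Real.log_natCast_nonneg D
    calc (n:ℝ) * (1 + Real.log D) / D = n * (1 + Real.log D) * (1 / D) := by ring
      _ ≤ n * (4 * Real.log (Real.log n)) * (800 * (Real.log (Real.log n) / Real.log n)) := by
          gcongr
      _ = _ := by ring
  linarith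

/-- Cost estimate for sparse marks. -/
theorem ev_markCost : ∀ᶠ n : ℕ in atTop, ∀ (Lab : Type) [Fintype Lab] (Q : ℕ),
    Fintype.card Lab = Q + 1 →
    Real.log (Fintype.card (Sparse n (Mark Lab) (none, none, none)
      (3 * numC n (Nat.clog 2 n / (80 * Nat.clog 2 (Nat.clog 2 n))))))
      ≤ 100000 * (n * Real.log (Real.log n) ^ 2 * (Real.log (Q + 1) + Real.log (Real.log n))
        / Real.log n) := by
  filter_upwards [ev_facts, ev_numC] with n hn hn2 Lab _ Q hQ
  obtain ⟨h3, e1, e2, e3, hLL, hL, e4, e5, hsq⟩ := hn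
  obtain ⟨_, _, hK⟩ := hn2
  set l := Nat.clog 2 n with hl
  set K := numC n (l / (80 * Nat.clog 2 l)) with hKdef
  set LL := Real.log (Real.log n) with hLLdef
  set L := Real.log (n:ℝ) with hLdef
  have hn0 : (0:ℝ) < n := by
    have : 0 < n := by omega
    exact_mod_cast this
  have hl1 : (1:ℝ) ≤ l := by linarith
  have hcard : (Fintype.card (Mark Lab) : ℝ) = (Q + 2) ^ 3 := by
    have : Fintype.card (Mark Lab) = (Q + 2) ^ 3 := by
      simp only [Mark, Fintype.card_prod, Fintype.card_option, hQ]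
      ring
    rw [this]; push_cast; ring
  have hQ0 : (0:ℝ) ≤ Q := by positivity
  have hz : (1:ℝ) ≤ ((Q:ℝ) + 2) ^ 3 * l := by
    have : (1:ℝ) ≤ ((Q:ℝ) + 2) ^ 3 := one_le_pow₀ (by linarith)
    nlinarith
  have h := log_card_sparse_le n (Mark Lab) (none, none, none) (3 * K) (((Q:ℝ) + 2) ^ 3 * l) hz
  rw [hcard] at h
  have e : (n:ℝ) * ((Q:ℝ) + 2) ^ 3 / (((Q:ℝ) + 2) ^ 3 * l) = n / l := by
    field_simp
  rw [e] at h
  refine h.trans ?_
  have hlog1 : Real.log (((Q:ℝ) + 2) ^ 3 * l) = 3 * Real.log (Q + 2) + Real.log l := by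
    rw [Real.log_mul (by positivity) (by positivity), Real.log_pow]; norm_num
  have hlog2 : Real.log ((Q:ℝ) + 2) ≤ Real.log (Q + 1) + LL := by
    have h1 : ((Q:ℝ) + 2) ≤ (Q + 1) * 2 := by linarith
    have h2 := Real.log_le_log (by positivity) h1
    rw [Real.log_mul (by positivity) (by norm_num)] at h2
    have h4 := Real.log_two_lt_d9
    linarith
  have hlog3 : Real.log l ≤ 3 * LL := by
    have h1 := Real.log_le_log (by linarith) e1
    rw [Real.log_mul (by norm_num) (by linarith)] at h1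
    have h5 : Real.log 3 ≤ 2 := by
      have := Real.log_le_sub_one_of_pos (show (0:ℝ) < 3 by norm_num)
      linarith
    linarith
  have hq0 : 0 ≤ Real.log ((Q:ℝ) + 1) := Real.log_nonneg (by linarith)
  have hlog4 : Real.log (((Q:ℝ) + 2) ^ 3 * l) ≤ 6 * (Real.log (Q + 1) + LL) := by
    rw [hlog1]; linarith
  have hA0 : 0 ≤ n * LL ^ 2 / L := by positivity
  have hnl : (n:ℝ) / l ≤ n * LL ^ 2 / L * (Real.log (Q + 1) + LL) := by
    have h1 : (n:ℝ) / l ≤ n / L := by gcongr
    have h2 : (n:ℝ) / L ≤ n * LL ^ 2 / L := by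
      gcongr
      have : (1:ℝ) ≤ LL ^ 2 := by nlinarith
      nlinarith
    have h3 : n * LL ^ 2 / L ≤ n * LL ^ 2 / L * (Real.log (Q + 1) + LL) := by
      have : (1:ℝ) ≤ Real.log (Q + 1) + LL := by linarith
      nlinarith
    linarith
  have hK3 : ((3 * K : ℕ) : ℝ) * Real.log (((Q:ℝ) + 2) ^ 3 * l)
      ≤ 72000 * (n * LL ^ 2 / L * (Real.log (Q + 1) + LL)) := by
    have hlog0 : 0 ≤ Real.log (((Q:ℝ) + 2) ^ 3 * l) := Real.log_nonneg hz
    calc ((3 * K : ℕ) : ℝ) * Real.log (((Q:ℝ) + 2) ^ 3 * l)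
        = 3 * (K * Real.log (((Q:ℝ) + 2) ^ 3 * l)) := by push_cast; ring
      _ ≤ 3 * ((4000 * (n * LL ^ 2 / L)) * (6 * (Real.log (Q + 1) + LL))) := by gcongr
      _ = _ := by ring
  have hfin : n * LL ^ 2 * (Real.log (Q + 1) + LL) / L
      = n * LL ^ 2 / L * (Real.log (Q + 1) + LL) := by ring
  rw [hfin]
  have : 0 ≤ n * LL ^ 2 / L * (Real.log (Q + 1) + LL) := by positivity
  linarith

def YesII (n Q : ℕ) (x y : SimpleGraph (Fin n)) : Prop :=
  (x ⊔ y).Connected ∧ ∀ u v, (x ⊔ y).dist u v ≤ Q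

theorem typeII_cost : ∃ N0 : ℕ, ∀ n : ℕ, N0 ≤ n → ∀ Q : ℕ,
    HasMA n (300000 * (n * Real.log (Real.log n) ^ 2 *
      (Real.log (Q + 1) + Real.log (Real.log n)) / Real.log n))
      (YesII n Q) (fun x y => ¬ (x ⊔ y).Connected) := by
  obtain ⟨N1, hN1⟩ := engine_final
  obtain ⟨N2, hN2⟩ := eventually_atTop.mp (ev_facts.and (ev_numC.and ev_markCost))
  refine ⟨N1 + N2, fun n hn Q => ?_⟩
  obtain ⟨⟨h3, e1, e2, e3, hLL, hL, e4, e5, hsq⟩, ⟨f1, f2, f3⟩, f4⟩ := hN2 n (by omega)
  set l := Nat.clog 2 n with hl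
  set lam := Nat.clog 2 l with hlam
  set D := l / (80 * lam) with hD
  obtain ⟨D', hD'⟩ : ∃ D', D = D' + 1 := ⟨D - 1, by omega⟩
  obtain ⟨code, dec, hdec⟩ := exists_code2 (n := n) (l := l) (Nat.le_pow_clog (by norm_num) n)
    (by omega)
  set K := 3 * numC n D with hK
  have hl1 : 1 ≤ l := by omega
  have hd : 40 * (lam * ((D' + 1) + (D' + 1))) ≤ l := by
    have := Nat.div_mul_le_self l (80 * lam)
    rw [← hD, hD'] at this
    calc 40 * (lam * ((D' + 1) + (D' + 1))) = (D' + 1) * (80 * lam) := by ring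
      _ ≤ l := this
  have hWne : Nonempty (Fin n × Sparse n (Mark (Fin (Q + 1))) (none, none, none) K) := by
    have : Nonempty (Fin n) := ⟨⟨0, by omega⟩⟩
    infer_instance
  have main := hN1 n (by omega) (l + 1) ((D' + 1) + (D' + 1)) (by omega) hd
    (Fin n × Sparse n (Mark (Fin (Q + 1))) (none, none, none) K)
    (fun w _ => (univ.filter (fun s => (w.2.1 s).2.1 ≠ none)).card + 1
      = (univ.filter (fun s => (w.2.1 s).1 ≠ none)).card ∧ (w.2.1 w.1).1 ≠ none)
    (fun _ _ => True)
    (fun w x u => code (ptr x u, decide (hasEntry (fun a b : Fin (Q + 1) => a < b) x w.2.1 u)))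
    (fun w y v β => badII dec (fun a b : Fin (Q + 1) => a < b) y w.2.1 w.1 v β)
    (YesII n Q) (fun x y => ¬ (x ⊔ y).Connected)
    (by
      rintro x y ⟨hG, hdist⟩
      obtain ⟨M0, hM1, hM2⟩ := exists_centres f1 f2 x y hG
      obtain ⟨r⟩ := hG.nonempty
      obtain ⟨w, m0, hgood, hcard⟩ := exists_good (fun a b : Fin (Q + 1) => a < b) x y
        (fun s => exT (ptr x) y s D) hG M0 hM1 r Q (fun u => hdist u r)
        (fun k => Fin.ofNat (Q + 1) k) (by
          intro k hk
          rw [Fin.lt_def]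
          simp only [Fin.ofNat_eq_cast, Fin.val_natCast]
          rw [Nat.mod_eq_of_lt (by omega), Nat.mod_eq_of_lt (by omega)]
          omega)
      refine ⟨(m0, ⟨w, ?_⟩), ⟨?_, ?_⟩, trivial, ?_⟩
      · have h5 := hcard.trans (show 3 * M0.card ≤ K by omega)
        refine le_trans (le_of_eq ?_) h5
        congr 1
        ext v
        simp
      · exact hgood.count
      · exact hgood.root
      · rw [hD'] at hgood
        exact noBad_of_good code dec hdec _ x y w m0 hgood)
    (by
      rintro x y hno ⟨m0, w⟩ ⟨hcount, hroot⟩ _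
      by_contra hcon
      push Not at hcon
      apply hno
      have hgood := good_of_noBad code dec hdec _ x y w.1 m0 hcount hroot hcon
      obtain ⟨g1, g2⟩ := hgood.sound (fun s => exT_reachable x y (ptr x) (ptr_reachable x) s _)
      -- all centres reach the root
      have hcen : ∀ k : ℕ, ∀ m (j : Fin (Q + 1)), (w.1 m).1 = some j → (j : ℕ) ≤ k →
          (x ⊔ y).Reachable m m0 := by
        intro k
        induction k with
        | zero =>
          intro m j hj hj0
          by_cases hm : m = m0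
          · rw [hm]
          obtain ⟨m', l', _, _, hlt⟩ := g2 m j hm hj
          rw [Fin.lt_def] at hlt
          omega
        | succ k ih =>
          intro m j hj hj0
          by_cases hm : m = m0
          · rw [hm]
          obtain ⟨m', l', h1, h2, hlt⟩ := g2 m j hm hj
          rw [Fin.lt_def] at hlt
          exact h1.trans (ih m' l' h2 (by omega))
      have hall : ∀ s, (x ⊔ y).Reachable s m0 := by
        intro s
        obtain ⟨m, hm, hsm⟩ := g1 s
        obtain ⟨j, hj⟩ := Option.ne_none_iff_exists'.mp hm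
        exact hsm.trans (hcen j m j hj le_rfl)
      have : Nonempty (Fin n) := ⟨m0⟩
      exact ⟨fun u v => (hall u).trans (hall v).symm⟩)
  refine main.mono ?_ (fun _ _ h => h) (fun _ _ h => h)
  have hn0 : (0:ℝ) < n := by
    have : 0 < n := by omega
    exact_mod_cast this
  have c1 : (0:ℝ) < Fintype.card (Sparse n (Mark (Fin (Q + 1))) (none, none, none) K) := by
    exact_mod_cast Fintype.card_pos
  have hlogW : Real.log (Fintype.card (Fin n × Sparse n (Mark (Fin (Q + 1))) (none, none, none) K))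
      = Real.log n + Real.log (Fintype.card (Sparse n (Mark (Fin (Q + 1))) (none, none, none) K)) := by
    rw [Fintype.card_prod, Fintype.card_fin]
    push_cast
    rw [Real.log_mul hn0.ne' c1.ne']
  have hm := f4 (Fin (Q + 1)) Q (by simp)
  rw [hlogW]
  set LL := Real.log (Real.log n) with hLLdef
  set L := Real.log (n:ℝ) with hLdef
  have hl0 : (0:ℝ) < l := by linarith
  have hQ0 : (0:ℝ) ≤ Q := by positivity
  have hq0 : 0 ≤ Real.log ((Q:ℝ) + 1) := Real.log_nonneg (by linarith)
  have hX : (n:ℝ) / L ≤ n * LL ^ 2 * (Real.log (Q + 1) + LL) / L := by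
    gcongr
    have h1 : (1:ℝ) ≤ LL ^ 2 := by nlinarith
    have h2 : (1:ℝ) ≤ Real.log (Q + 1) + LL := by linarith
    calc (n:ℝ) = n * 1 * 1 := by ring
      _ ≤ n * LL ^ 2 * (Real.log (Q + 1) + LL) := by gcongr
  have hnl : (n:ℝ) / l ≤ n / L := by gcongr
  have hLn : L ≤ n / L := by rw [le_div_iff₀ (by linarith)]; exact hsq
  linarith

end Helper42_MA
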