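import Pool.Agent.Helper42_MA.TypeII

set_option autoImplicit false

namespace Helper42_MA

open Finset Classical Filter

section
variable {n : ℕ}

/-- The graph given by a list of pairs (loops are ignored). -/
def ofPairs {Q : ℕ} (e : Fin Q → Fin n × Fin n) : SimpleGraph (Fin n) where
  Adj u v := u ≠ v ∧ ∃ i, e i = (u, v) ∨ e i = (v, u)
  symm := ⟨by
    rintro a b ⟨hab, i, hi⟩
    exact ⟨hab.symm, i, hi.symm⟩⟩
  loopless := ⟨fun a h => h.1 rfl⟩

/-- Vertices reachable from `m`. -/
noncomputable def compF (G : SimpleGraph (Fin n)) (m : Fin n) : Finset (Fin n) :=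
  univ.filter (fun v => G.Reachable m v)

theorem mem_compF (G : SimpleGraph (Fin n)) (m v : Fin n) : v ∈ compF G m ↔ G.Reachable m v := by
  simp [compF]

theorem ofPairs_update {Q : ℕ} (e : Fin Q → Fin n × Fin n) (k : Fin Q) (m0 u w : Fin n)
    (hk : e k = (m0, m0)) : ofPairs e ≤ ofPairs (Function.update e k (u, w)) := by
  intro a b hab
  obtain ⟨hne, i, hi⟩ := hab
  refine ⟨hne, i, ?_⟩
  by_cases hik : i = k
  · subst hik
    exfalso
    rcases hi with hi | hi <;>
    · rw [hk] at hi
      simp only [Prod.mk.injEq] at hi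
      exact hne (by rw [← hi.1, ← hi.2])
  · rw [Function.update_of_ne hik]; exact hi

theorem ofPairs_update_adj {Q : ℕ} (e : Fin Q → Fin n × Fin n) (k : Fin Q) (u w : Fin n)
    (h : u ≠ w) : (ofPairs (Function.update e k (u, w))).Adj u w :=
  ⟨h, k, Or.inl (by simp)⟩

theorem ofPairs_update_le {Q : ℕ} (e : Fin Q → Fin n × Fin n) (k : Fin Q) (u w : Fin n)
    (x : SimpleGraph (Fin n)) (h : ofPairs e ≤ x) (huw : x.Adj u w) :
    ofPairs (Function.update e k (u, w)) ≤ x := by
  intro a b hab
  obtain ⟨hne, i, hi⟩ := hab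
  by_cases hik : i = k
  · subst hik
    rw [Function.update_self] at hi
    simp only [Prod.mk.injEq] at hi
    rcases hi with ⟨rfl, rfl⟩ | ⟨rfl, rfl⟩
    · exact huw
    · exact huw.symm
  · rw [Function.update_of_ne hik] at hi
    exact h ⟨hne, i, hi⟩

theorem exists_small_tree (x y : SimpleGraph (Fin n)) (hG : (x ⊔ y).Connected) (m0 : Fin n) (Q : ℕ)
    (hQ : Q + 1 ≤ n) : ∃ eA eB : Fin Q → Fin n × Fin n, ofPairs eA ≤ x ∧ ofPairs eB ≤ y ∧
      Q + 1 ≤ (compF (ofPairs eA ⊔ ofPairs eB) m0).card := by
  have key : ∀ k ≤ Q, ∃ eA eB : Fin Q → Fin n × Fin n, ofPairs eA ≤ x ∧ ofPairs eB ≤ y ∧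
      (∀ i : Fin Q, k ≤ i → eA i = (m0, m0) ∧ eB i = (m0, m0)) ∧
      k + 1 ≤ (compF (ofPairs eA ⊔ ofPairs eB) m0).card := by
    intro k
    induction k with
    | zero =>
      intro _
      have hbot : ∀ z : SimpleGraph (Fin n), ofPairs (fun _ : Fin Q => (m0, m0)) ≤ z := by
        intro z a b hab
        obtain ⟨hne, i, hi⟩ := hab
        simp only [Prod.mk.injEq] at hi
        exfalso
        rcases hi with hi | hi
        · exact hne (by rw [← hi.1, ← hi.2])
        · exact hne (by rw [← hi.1, ← hi.2])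
      refine ⟨fun _ => (m0, m0), fun _ => (m0, m0), hbot x, hbot y, fun _ _ => ⟨rfl, rfl⟩, ?_⟩
      have : m0 ∈ compF (ofPairs (fun _ : Fin Q => (m0, m0)) ⊔ ofPairs (fun _ : Fin Q => (m0, m0))) m0 :=
        (mem_compF _ _ _).mpr (SimpleGraph.Reachable.refl m0)
      have := Finset.card_pos.mpr ⟨m0, this⟩
      omega
    | succ k ih =>
      intro hk
      obtain ⟨eA, eB, hA, hB, hpad, hcard⟩ := ih (by omega)
      set Rch := compF (ofPairs eA ⊔ ofPairs eB) m0 with hRch
      by_cases hall : Rch = univ
      · refine ⟨eA, eB, hA, hB, fun i hi => hpad i (by omega), ?_⟩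
        rw [← hRch, hall, Finset.card_univ, Fintype.card_fin]
        omega
      · -- an edge leaving the reachable set
        obtain ⟨v, hv⟩ : ∃ v, v ∉ Rch := by
          by_contra hcon
          push Not at hcon
          exact hall (Finset.eq_univ_of_forall hcon)
        have hcross : ∀ a b, (x ⊔ y).Walk a b → a ∈ Rch → b ∉ Rch →
            ∃ u w, (x ⊔ y).Adj u w ∧ u ∈ Rch ∧ w ∉ Rch := by
          intro a b p
          induction p with
          | nil => intro h1 h2; exact absurd h1 h2
          | @cons a c b hadj p ihp =>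
            intro h1 h2
            by_cases hc : c ∈ Rch
            · exact ihp hc h2
            · exact ⟨a, c, hadj, h1, hc⟩
        obtain ⟨p⟩ := hG.preconnected m0 v
        obtain ⟨u, w, huw, huR, hwR⟩ := hcross m0 v p
          ((mem_compF _ _ _).mpr (SimpleGraph.Reachable.refl m0)) hv
        have hlt : k < Q := by omega
        have hpk := hpad ⟨k, hlt⟩ le_rfl
        have huw' : u ≠ w := fun h => hwR (h ▸ huR)
        have grow : ∀ G' : SimpleGraph (Fin n), ofPairs eA ⊔ ofPairs eB ≤ G' → G'.Adj u w →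
            k + 1 + 1 ≤ (compF G' m0).card := by
          intro G' hle hadj
          have hsub : insert w Rch ⊆ compF G' m0 := by
            intro z hz
            rw [Finset.mem_insert] at hz
            rw [mem_compF]
            rcases hz with rfl | hz
            · exact (((mem_compF _ _ _).mp huR).mono hle).trans hadj.reachable
            · exact ((mem_compF _ _ _).mp hz).mono hle
          have := Finset.card_le_card hsub
          rw [Finset.card_insert_of_notMem hwR] at this
          omega
        rw [SimpleGraph.sup_adj] at huw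
        rcases huw with h | h
        · refine ⟨Function.update eA ⟨k, hlt⟩ (u, w), eB, ofPairs_update_le _ _ _ _ x hA h, hB, ?_, ?_⟩
          · intro i hi
            have hne : i ≠ ⟨k, hlt⟩ := by
              intro h; rw [h] at hi; simp at hi
            rw [Function.update_of_ne hne]
            exact hpad i (by omega)
          · apply grow
            · exact sup_le_sup_right (ofPairs_update eA _ m0 u w hpk.1) _
            · rw [SimpleGraph.sup_adj]; exact Or.inl (ofPairs_update_adj _ _ _ _ huw')
        · refine ⟨eA, Function.update eB ⟨k, hlt⟩ (u, w), hA, ofPairs_update_le _ _ _ _ y hB h, ?_, ?_⟩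
          · intro i hi
            have hne : i ≠ ⟨k, hlt⟩ := by
              intro h; rw [h] at hi; simp at hi
            rw [Function.update_of_ne hne]
            exact hpad i (by omega)
          · apply grow
            · exact sup_le_sup_left (ofPairs_update eB _ m0 u w hpk.2) _
            · rw [SimpleGraph.sup_adj]; exact Or.inr (ofPairs_update_adj _ _ _ _ huw')
  obtain ⟨eA, eB, hA, hB, _, hcard⟩ := key Q le_rfl
  exact ⟨eA, eB, hA, hB, hcard⟩

end

/-- NO instances: disconnected, with a component of at most `Q` vertices. -/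
def NoIII (n Q : ℕ) (x y : SimpleGraph (Fin n)) : Prop :=
  ¬ (x ⊔ y).Connected ∧ ∃ v, (compF (x ⊔ y) v).card ≤ Q

theorem typeIII_cost : ∃ N0 : ℕ, ∀ n : ℕ, N0 ≤ n → ∀ Q : ℕ, Q + 1 ≤ n →
    HasMA n (300000 * (n * Real.log (Real.log n) ^ 2 *
      (Real.log (Q + 1) + Real.log (Real.log n)) / Real.log n) + 8 * Q * Real.log n)
      (fun x y => (x ⊔ y).Connected) (NoIII n Q) := by
  obtain ⟨N1, hN1⟩ := engine_final
  obtain ⟨N2, hN2⟩ := eventually_atTop.mp (ev_facts.and (ev_numC.and ev_markCost))
  refine ⟨N1 + N2, fun n hn Q hQn => ?_⟩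
  obtain ⟨⟨h3, e1, e2, e3, hLL, hL, e4, e5, hsq⟩, ⟨f1, f2, f3⟩, f4⟩ := hN2 n (by omega)
  set l := Nat.clog 2 n with hl
  set lam := Nat.clog 2 l with hlam
  set D := l / (80 * lam) with hD
  obtain ⟨D', hD'⟩ : ∃ D', D = D' + 1 := ⟨D - 1, by omega⟩
  obtain ⟨code, dec, hdec⟩ := exists_code2 (n := n) (l := l) (Nat.le_pow_clog (by norm_num) n)
    (by omega)
  set K := 3 * numC n D with hK
  have hl1 : 1 ≤ l := by omega
  have hd : 40 * (lam * ((D' + 1) + (D' + 1))) ≤ l := by
    have := Nat.div_mul_le_self l (80 * lam)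
    rw [← hD, hD'] at this
    calc 40 * (lam * ((D' + 1) + (D' + 1))) = (D' + 1) * (80 * lam) := by ring
      _ ≤ l := this
  have hFn : Nonempty (Fin n) := ⟨⟨0, by omega⟩⟩
  have hWne : Nonempty ((Fin n × Sparse n (Mark (ZMod (Q + 1))) (none, none, none) K) ×
      (Fin Q → Fin n × Fin n) × (Fin Q → Fin n × Fin n)) := by
    infer_instance
  have main := hN1 n (by omega) (l + 1) ((D' + 1) + (D' + 1)) (by omega) hd
    ((Fin n × Sparse n (Mark (ZMod (Q + 1))) (none, none, none) K) ×
      (Fin Q → Fin n × Fin n) × (Fin Q → Fin n × Fin n))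
    (fun w x => ((univ.filter (fun s => (w.1.2.1 s).2.1 ≠ none)).card + 1
      = (univ.filter (fun s => (w.1.2.1 s).1 ≠ none)).card ∧ (w.1.2.1 w.1.1).1 ≠ none) ∧
      ofPairs w.2.1 ≤ x ∧ Q + 1 ≤ (compF (ofPairs w.2.1 ⊔ ofPairs w.2.2) w.1.1).card)
    (fun w y => ofPairs w.2.2 ≤ y)
    (fun w x u => code (ptr x u,
      decide (hasEntry (fun a b : ZMod (Q + 1) => a + 1 = b) x w.1.2.1 u)))
    (fun w y v β => badII dec (fun a b : ZMod (Q + 1) => a + 1 = b) y w.1.2.1 w.1.1 v β)
    (fun x y => (x ⊔ y).Connected) (NoIII n Q)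
    (by
      intro x y hG
      obtain ⟨M0, hM1, hM2⟩ := exists_centres f1 f2 x y hG
      obtain ⟨r⟩ := hG.nonempty
      obtain ⟨w, m0, hgood, hcard⟩ := exists_good (fun a b : ZMod (Q + 1) => a + 1 = b) x y
        (fun s => exT (ptr x) y s D) hG M0 hM1 r n (by
          intro u
          obtain ⟨p, hp, hp2⟩ := hG.exists_path_of_dist u r
          have h3 := hp.length_lt
          rw [Fintype.card_fin] at h3
          omega)
        (fun k => (k : ZMod (Q + 1))) (by
          intro k hk
          push_cast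
          rfl)
      obtain ⟨eA, eB, hA, hB, hcomp⟩ := exists_small_tree x y hG m0 Q hQn
      refine ⟨((m0, ⟨w, ?_⟩), eA, eB), ⟨⟨?_, ?_⟩, hA, hcomp⟩, hB, ?_⟩
      · have h5 := hcard.trans (show 3 * M0.card ≤ K by omega)
        refine le_trans (le_of_eq ?_) h5
        congr 1
        ext v
        simp
      · exact hgood.count
      · exact hgood.root
      · rw [hD'] at hgood
        exact noBad_of_good code dec hdec _ x y w m0 hgood)
    (by
      rintro x y ⟨hno, v0, hv0⟩ ⟨⟨m0, w⟩, eA, eB⟩ ⟨⟨hcount, hroot⟩, hA, hcomp⟩ hB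
      by_contra hcon
      push Not at hcon
      have hgood := good_of_noBad code dec hdec _ x y w.1 m0 hcount hroot hcon
      obtain ⟨g1, g2⟩ := hgood.sound (fun s => exT_reachable x y (ptr x) (ptr_reachable x) s _)
      simp only at hA hB hcomp
      have hle : ofPairs eA ⊔ ofPairs eB ≤ x ⊔ y := sup_le_sup hA hB
      by_cases hm0 : (x ⊔ y).Reachable v0 m0
      · -- the component of the root is large
        have hsub : compF (ofPairs eA ⊔ ofPairs eB) m0 ⊆ compF (x ⊔ y) v0 := by
          intro z hz
          rw [mem_compF] at hz ⊢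
          exact hm0.trans (hz.mono hle)
        have := Finset.card_le_card hsub
        omega
      · -- all labels occur in the component of v0
        have hstep : ∀ k : ℕ, ∀ m l, (x ⊔ y).Reachable v0 m → (w.1 m).1 = some l →
            ∃ m', (x ⊔ y).Reachable v0 m' ∧ (w.1 m').1 = some (l - (k : ZMod (Q + 1))) := by
          intro k
          induction k with
          | zero => intro m l hm hl; exact ⟨m, hm, by simpa using hl⟩
          | succ k ih =>
            intro m l hm hl
            have hne : m ≠ m0 := by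
              intro h; exact hm0 (h ▸ hm)
            obtain ⟨m', l', h1, h2, h3⟩ := g2 m l hne hl
            obtain ⟨m'', h4, h5⟩ := ih m' l' (hm.trans h1) h2
            refine ⟨m'', h4, ?_⟩
            rw [h5, ← h3]
            congr 1
            push_cast
            ring
        obtain ⟨m, hm, hvm⟩ := g1 v0
        obtain ⟨l1, hl1⟩ := Option.ne_none_iff_exists'.mp hm
        have hall : ∀ t : ZMod (Q + 1), ∃ m', (x ⊔ y).Reachable v0 m' ∧ (w.1 m').1 = some t := by
          intro t
          obtain ⟨m', h4, h5⟩ := hstep (l1 - t).val m l1 hvm hl1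
          refine ⟨m', h4, ?_⟩
          rw [h5]
          congr 1
          rw [ZMod.natCast_val, ZMod.cast_id]
          ring
        choose mm hmm1 hmm2 using hall
        have hinj : Function.Injective mm := by
          intro a b hab
          have h1 := hmm2 a
          rw [hab, hmm2 b] at h1
          simpa using h1.symm
        have hcard2 : Fintype.card (ZMod (Q + 1)) ≤ (compF (x ⊔ y) v0).card := by
          rw [← Finset.card_univ, ← Finset.card_image_of_injective univ hinj]
          apply Finset.card_le_card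
          intro z hz
          obtain ⟨t, _, rfl⟩ := Finset.mem_image.mp hz
          rw [mem_compF]; exact hmm1 t
        rw [ZMod.card] at hcard2
        omega)
  refine main.mono ?_ (fun _ _ h => h) (fun _ _ h => h)
  have hn0 : (0:ℝ) < n := by
    have : 0 < n := by omega
    exact_mod_cast this
  have c1 : (0:ℝ) < Fintype.card (Sparse n (Mark (ZMod (Q + 1))) (none, none, none) K) := by
    exact_mod_cast Fintype.card_pos
  have hlogW : Real.log (Fintype.card ((Fin n × Sparse n (Mark (ZMod (Q + 1))) (none, none, none) K) ×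
      (Fin Q → Fin n × Fin n) × (Fin Q → Fin n × Fin n)))
      = (Real.log n + Real.log (Fintype.card (Sparse n (Mark (ZMod (Q + 1))) (none, none, none) K)))
        + 4 * Q * Real.log n := by
    simp only [Fintype.card_prod, Fintype.card_fin, Fintype.card_fun]
    push_cast
    have hp : (0:ℝ) < ((n:ℝ) * n) ^ Q := by positivity
    rw [Real.log_mul (by positivity) (by positivity), Real.log_mul hn0.ne' c1.ne',
      Real.log_mul hp.ne' hp.ne', Real.log_pow, Real.log_mul hn0.ne' hn0.ne']
    ring
  have hm := f4 (ZMod (Q + 1)) Q (ZMod.card _)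
  rw [hlogW]
  set LL := Real.log (Real.log n) with hLLdef
  set L := Real.log (n:ℝ) with hLdef
  have hl0 : (0:ℝ) < l := by linarith
  have hQ0 : (0:ℝ) ≤ Q := by positivity
  have hq0 : 0 ≤ Real.log ((Q:ℝ) + 1) := Real.log_nonneg (by linarith)
  have hX : (n:ℝ) / L ≤ n * LL ^ 2 * (Real.log (Q + 1) + LL) / L := by
    gcongr
    have h1 : (1:ℝ) ≤ LL ^ 2 := by nlinarith
    have h2 : (1:ℝ) ≤ Real.log (Q + 1) + LL := by linarith
    calc (n:ℝ) = n * 1 * 1 := by ring
      _ ≤ n * LL ^ 2 * (Real.log (Q + 1) + LL) := by gcongr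
  have hnl : (n:ℝ) / l ≤ n / L := by gcongr
  have hLn : L ≤ n / L := by rw [le_div_iff₀ (by linarith)]; exact hsq
  linarith

end Helper42_MA
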